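import Pool.Agent.TH272.Shr.Defs

set_option autoImplicit false

/-! # Shared gates that depend on many items -/

namespace Pool.Agent.TH272.Shr

variable {ι : Type} {D : ι → Type} {w q : ℕ} [DecidableEq ι]

/-- The number of references to bits that depend on more than `d` of the items in `I`, if the bit
`j` depends on the items in `V j`. -/
def Fm.heavyRefs {k : ℕ} (I : Finset ι) (d : ℕ) (V : Fin k → Finset ι) : Fm ι D w q k → ℕ
  | .leaf _ => 0
  | .ref j => if d < (I ∩ V j).card then 1 else 0
  | .gate _ a b => a.heavyRefs I d V + b.heavyRefs I d V

/-- The number of references to formulas that depend on more than `d` of the items in `I`. -/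
def Prog.heavyRefs (I : Finset ι) (d : ℕ) : {k : ℕ} → Prog ι D w q k → ℕ
  | _, .nil => 0
  | _, .snoc P φ => P.heavyRefs I d + φ.heavyRefs I d P.items

/-- The number of references to shared gates that depend on more than `d` of the items in `I`. -/
def Circuit.heavyRefs (I : Finset ι) (d : ℕ) (C : Circuit ι D w q) : ℕ :=
  C.gates.heavyRefs I d + C.output.heavyRefs I d C.gates.items

/-- The number of shared gates that depend on more than `d` of the items in `I`. -/
def Circuit.heavyGates (I : Finset ι) (d : ℕ) (C : Circuit ι D w q) : ℕ :=
  (Finset.univ.filter fun j => d < (I ∩ C.gates.items j).card).card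

end Pool.Agent.TH272.Shr
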