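import Pool.Agent.TH272.Shr.Core
import Pool.Agent.TH272.Shr.HeavyDefs

set_option autoImplicit false

/-! # A lower bound in terms of the shared gates that depend on many items -/

namespace Pool.Agent.TH272.Shr

open Finset Pool.Agent.TH697.Form Pool.Agent.TH697.Row
open Pool.Agent.TH457.Ary (Test merge Queries gen)

variable {ι : Type} {D : ι → Type} [DecidableEq ι] {w q : ℕ}

theorem Fm.sum_refsTo_heavy {k : ℕ} (I : Finset ι) (V : Fin k → Finset ι) (d : ℕ)
    (F : Fm ι D w q k) :
    ∑ b ∈ I, F.refsTo V b ≤ d * F.refs + I.card * F.heavyRefs I d V := by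
  induction F with
  | leaf τ => simp [refsTo]
  | ref j =>
    simp only [refsTo, refs, heavyRefs]
    rw [← card_filter, mul_one, filter_mem_eq_inter]
    split_ifs with h
    · have := card_le_card (inter_subset_left (s₁ := I) (s₂ := V j))
      omega
    · omega
  | gate g a c iha ihc =>
    simp only [refsTo, refs, heavyRefs, sum_add_distrib]
    rw [mul_add, mul_add]
    omega

theorem Prog.sum_refsTo_heavy (I : Finset ι) (d : ℕ) : ∀ {k : ℕ} (P : Prog ι D w q k),
    ∑ b ∈ I, P.refsTo b ≤ d * P.refs + I.card * P.heavyRefs I d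
  | _, .nil => by simp [refsTo]
  | _, .snoc P φ => by
    have h1 := Prog.sum_refsTo_heavy I d P
    have h2 := Fm.sum_refsTo_heavy I P.items d φ
    simp only [refsTo, refs, heavyRefs, sum_add_distrib, mul_add] at h1 h2 ⊢
    omega

theorem Prog.sum_count_heavy (I : Finset ι) (d : ℕ) : ∀ {k : ℕ} (P : Prog ι D w q k),
    ∑ b ∈ I, P.count b ≤
      d * k + I.card * (univ.filter fun j => d < (I ∩ P.items j).card).card
  | _, .nil => by simp [count]
  | k + 1, .snoc P φ => by
    have h1 := Prog.sum_count_heavy I d P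
    have h3 : ∑ b ∈ I, (if b ∈ φ.items P.items then 1 else 0) ≤
        d + I.card * (if d < (I ∩ φ.items P.items).card then 1 else 0) := by
      rw [← card_filter, filter_mem_eq_inter]
      split_ifs with h
      · have := card_le_card (inter_subset_left (s₁ := I) (s₂ := φ.items P.items))
        omega
      · omega
    rw [card_filter] at h1 ⊢
    rw [Fin.sum_univ_castSucc]
    simp only [count, items, Fin.snoc_castSucc, Fin.snoc_last, sum_add_distrib, mul_add,
      mul_one] at h1 ⊢
    omega

variable {T : Type} [Fintype T] {Ω : Type} [Fintype Ω]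

/-- The lower bound: if each item in `I` can query the bits of a string indexed by `T`, then a
random circuit has many leaves, or many references, or references to gates that depend on many
items. -/
theorem circuit_heavy (μ : Ω → ℝ) (hμ : IsProb μ) (C : Ω → Circuit ι D w q)
    (P : (∀ i, D i) → Prop) (f : (∀ i, D i) → Bool)
    (hF : ApproximatesOn μ (fun ω => (C ω).eval) P f) (hq : 1 ≤ q) (hw : 1 ≤ w)
    (I : Finset ι) (d : ℕ) (h : ∀ b ∈ I, Queries T id P f b) :
    (I.card : ℝ) * ((49 / 600 : ℝ) * Fintype.card T - 1) ≤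
      w * (4 + (w - 1) * Real.logb 2 q) * mean μ (fun ω => (C ω).leaves) +
        1 * (4 * (d * (mean μ (fun ω => (C ω).refs) + mean μ (fun ω => (C ω).shared)) +
          I.card * (mean μ (fun ω => (C ω).heavyRefs I d) +
            mean μ (fun ω => (C ω).heavyGates I d))) + 0) := by
  classical
  have h6 : (0 : ℝ) < Real.log 2 := Real.log_pos (by norm_num)
  have hlq : 0 ≤ Real.log (q : ℝ) := Real.log_nonneg (by exact_mod_cast hq)
  have hw' : ((w - 1 : ℕ) : ℝ) = (w : ℝ) - 1 := by
    rw [Nat.cast_sub hw, Nat.cast_one]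
  have hw1 : (0 : ℝ) ≤ (w : ℝ) - 1 := by rw [← hw']; positivity
  obtain ⟨c, hc⟩ : ∃ c : ℝ, c = 4 * Real.log 2 + (w - 1) * Real.log q := ⟨_, rfl⟩
  have hc0 : 0 ≤ c := by rw [hc]; positivity
  obtain ⟨l, hl⟩ : ∃ l : ℝ, l = Real.log 2 := ⟨_, rfl⟩
  have hl0 : 0 ≤ l := by rw [hl]; exact h6.le
  have h1 : ∀ b ∈ I, (49 / 600 : ℝ) * Fintype.card T * l
      ≤ ∑ ω, μ ω * (l + l * ((C ω).gates.count b : ℝ) +
        4 * l * (((C ω).gates.refsTo b : ℝ) + ((C ω).output.refsTo (C ω).gates.items b : ℝ)) +
        c * (((C ω).gates.reads b : ℝ) + ((C ω).output.reads b : ℝ))) := by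
    intro b hb
    choose S hS1 hS2 using fun ω => Circuit.subfunctions b (C ω)
    have hg := gen μ hμ (fun ω => (C ω).eval) P f hF id b S (fun ω z => hS2 ω z) (h b hb)
    rw [← hl] at hg
    refine hg.trans ?_
    apply sum_le_sum
    intro ω _
    apply mul_le_mul_of_nonneg_left _ (hμ.nonneg ω)
    obtain ⟨-, -, R, -⟩ := h b hb
    have hne : 1 ≤ (S ω).card := card_pos.2 ⟨_, hS2 ω (R (fun _ => false))⟩
    have h2 : ((S ω).card : ℝ) ≤ 2 ^ (1 + (C ω).gates.count b) *
        16 ^ ((C ω).gates.refsTo b + (C ω).output.refsTo (C ω).gates.items b) *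
        (16 * (q : ℝ) ^ (w - 1)) ^ ((C ω).gates.reads b + (C ω).output.reads b) := by
      exact_mod_cast hS1 ω
    have h4 := Real.log_le_log (by exact_mod_cast hne) h2
    have hq' : (0 : ℝ) < q := by exact_mod_cast hq
    rw [Real.log_mul (by positivity) (by positivity), Real.log_mul (by positivity) (by positivity),
      Real.log_pow, Real.log_pow, Real.log_pow,
      Real.log_mul (by norm_num) (by positivity), Real.log_pow, hw',
      show (16 : ℝ) = 2 ^ 4 by norm_num, Real.log_pow] at h4
    push_cast at h4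
    rw [← hl] at h4 hc
    rw [hc]
    linarith
  have h2 := sum_le_sum h1
  rw [sum_const, nsmul_eq_mul, sum_comm] at h2
  have h3 : ∑ ω, ∑ b ∈ I, μ ω * (l + l * ((C ω).gates.count b : ℝ) +
        4 * l * (((C ω).gates.refsTo b : ℝ) + ((C ω).output.refsTo (C ω).gates.items b : ℝ)) +
        c * (((C ω).gates.reads b : ℝ) + ((C ω).output.reads b : ℝ))) ≤
      I.card * l + 4 * l * (d * (mean μ (fun ω => (C ω).refs) +
        mean μ (fun ω => (C ω).shared)) + I.card * (mean μ (fun ω => (C ω).heavyRefs I d) +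
            mean μ (fun ω => (C ω).heavyGates I d))) +
        c * w * mean μ (fun ω => (C ω).leaves) := by
    have e1 : I.card * l + 4 * l * (d * (mean μ (fun ω => (C ω).refs) +
        mean μ (fun ω => (C ω).shared)) + I.card * (mean μ (fun ω => (C ω).heavyRefs I d) +
            mean μ (fun ω => (C ω).heavyGates I d))) +
        c * w * mean μ (fun ω => (C ω).leaves) =
        ∑ ω, μ ω * (I.card * l + 4 * l * (d * ((C ω).refs + (C ω).shared) +
          I.card * ((C ω).heavyRefs I d + (C ω).heavyGates I d)) + c * w * (C ω).leaves) := by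
      unfold mean
      have e2 : ∀ ω, μ ω * (I.card * l + 4 * l * (d * (((C ω).refs : ℝ) + (C ω).shared) +
          I.card * ((C ω).heavyRefs I d + (C ω).heavyGates I d)) + c * w * (C ω).leaves) =
          I.card * l * μ ω + 4 * l * d * (μ ω * ((C ω).refs : ℝ)) +
            4 * l * d * (μ ω * ((C ω).shared : ℝ)) +
            4 * l * I.card * (μ ω * ((C ω).heavyRefs I d : ℝ)) +
            4 * l * I.card * (μ ω * ((C ω).heavyGates I d : ℝ)) +
            c * w * (μ ω * ((C ω).leaves : ℝ)) := fun ω => by ring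
      rw [sum_congr rfl (fun ω _ => e2 ω), sum_add_distrib, sum_add_distrib, sum_add_distrib,
        sum_add_distrib, sum_add_distrib,
        ← mul_sum, ← mul_sum, ← mul_sum, ← mul_sum, ← mul_sum, ← mul_sum, hμ.sum_one]
      ring
    rw [e1]
    apply sum_le_sum
    intro ω _
    rw [← mul_sum]
    apply mul_le_mul_of_nonneg_left _ (hμ.nonneg ω)
    rw [sum_add_distrib, sum_add_distrib, sum_add_distrib, sum_const, nsmul_eq_mul, ← mul_sum,
      ← mul_sum, ← mul_sum, sum_add_distrib, sum_add_distrib]
    have h5 : ∑ b ∈ I, ((C ω).gates.reads b : ℝ) + ∑ b ∈ I, ((C ω).output.reads b : ℝ) ≤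
        w * (C ω).leaves := by
      have e3 : ∑ b ∈ I, (C ω).gates.reads b + ∑ b ∈ I, (C ω).output.reads b ≤
          w * (C ω).leaves := by
        unfold Circuit.leaves
        rw [mul_add]
        exact Nat.add_le_add (Prog.sum_reads_le I _) (Fm.sum_reads_le I _)
      exact_mod_cast e3
    have h7 : ∑ b ∈ I, ((C ω).gates.refsTo b : ℝ) +
        ∑ b ∈ I, ((C ω).output.refsTo (C ω).gates.items b : ℝ) ≤
          d * (C ω).refs + I.card * (C ω).heavyRefs I d := by
      have e3 : ∑ b ∈ I, (C ω).gates.refsTo b +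
          ∑ b ∈ I, (C ω).output.refsTo (C ω).gates.items b ≤
            d * (C ω).refs + I.card * (C ω).heavyRefs I d := by
        unfold Circuit.refs Circuit.heavyRefs
        have k1 := Prog.sum_refsTo_heavy I d (C ω).gates
        have k2 := Fm.sum_refsTo_heavy I (C ω).gates.items d (C ω).output
        rw [mul_add, mul_add]
        omega
      exact_mod_cast e3
    have h8 : ∑ b ∈ I, ((C ω).gates.count b : ℝ) ≤
        d * (C ω).shared + I.card * (C ω).heavyGates I d := by
      have e3 := Prog.sum_count_heavy I d (C ω).gates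
      exact_mod_cast e3
    have h9 := mul_le_mul_of_nonneg_left h5 hc0
    have h10 := mul_le_mul_of_nonneg_left h7 (mul_nonneg (by norm_num : (0 : ℝ) ≤ 4) hl0)
    have h11 := mul_le_mul_of_nonneg_left h8 hl0
    have h12 : 0 ≤ l * (d * (C ω).shared) := by positivity
    have h13 : 0 ≤ l * (I.card * (C ω).heavyGates I d) := by positivity
    linarith
  have h4 := h2.trans h3
  have h7 : w * (4 + (w - 1) * Real.logb 2 q) * mean μ (fun ω => (C ω).leaves) * l =
      c * w * mean μ (fun ω => (C ω).leaves) := by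
    rw [hc, hl, Real.logb]
    field_simp
  have h5 : (I.card : ℝ) * ((49 / 600 : ℝ) * Fintype.card T - 1) * l ≤
      (w * (4 + (w - 1) * Real.logb 2 q) * mean μ (fun ω => (C ω).leaves) +
        1 * (4 * (d * (mean μ (fun ω => (C ω).refs) + mean μ (fun ω => (C ω).shared)) +
          I.card * (mean μ (fun ω => (C ω).heavyRefs I d) +
            mean μ (fun ω => (C ω).heavyGates I d))) + 0)) * l := by
    rw [add_mul, h7]
    linarith
  exact le_of_mul_le_mul_right h5 (by rw [hl]; exact h6)

/-- The quantity in the bounds. -/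
theorem extra_nonneg (μ : Ω → ℝ) (hμ : IsProb μ) (C : Ω → Circuit ι D w q) (I : Finset ι)
    (d : ℕ) (m : ℝ) (hm : 0 ≤ m) :
    0 ≤ d * (mean μ (fun ω => (C ω).refs) + mean μ (fun ω => (C ω).shared)) +
      m * (mean μ (fun ω => (C ω).heavyRefs I d) + mean μ (fun ω => (C ω).heavyGates I d)) := by
  have h1 := mean_nonneg μ hμ (fun ω => (C ω).refs)
  have h2 := mean_nonneg μ hμ (fun ω => (C ω).shared)
  have h3 := mean_nonneg μ hμ (fun ω => (C ω).heavyRefs I d)
  have h4 := mean_nonneg μ hμ (fun ω => (C ω).heavyGates I d)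
  positivity

end Pool.Agent.TH272.Shr
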