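import Pool.Agent.TH272.Shr.HeavyDefs
import Pool.Agent.TH697.Form.Defs

set_option autoImplicit false

/-! # Formulas as circuits without shared gates -/

namespace Pool.Agent.TH272.Shr

open Pool.Agent.TH457.Ary (Test)

variable {ι : Type} {D : ι → Type} {k : ℕ}

/-- A formula whose leaves are predicates of one item. -/
def ofFml : Pool.Agent.TH697.Form.Fml ι D → Fm ι D 1 2 k
  | .leaf i p => .leaf ⟨fun _ => i, fun _ d => if p d then 1 else 0, fun v => decide (v 0 = 1)⟩
  | .gate g a b => .gate g (ofFml a) (ofFml b)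

theorem ofFml_eval (F : Pool.Agent.TH697.Form.Fml ι D) (x : ∀ i, D i) (v : Fin k → Bool) :
    (ofFml F).eval x v = F.eval x := by
  induction F with
  | leaf i p =>
    simp only [ofFml, Fm.eval, Test.eval, Pool.Agent.TH697.Form.Fml.eval]
    by_cases h : p (x i) = true <;> simp [h]
  | gate g a b iha ihb => simp only [ofFml, Fm.eval, Pool.Agent.TH697.Form.Fml.eval, iha, ihb]

theorem ofFml_leaves (F : Pool.Agent.TH697.Form.Fml ι D) :
    (ofFml F : Fm ι D 1 2 k).leaves = F.size := by
  induction F with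
  | leaf i p => rfl
  | gate g a b iha ihb => simp only [ofFml, Fm.leaves, Pool.Agent.TH697.Form.Fml.size, iha, ihb]

theorem ofFml_refs (F : Pool.Agent.TH697.Form.Fml ι D) :
    (ofFml F : Fm ι D 1 2 k).refs = 0 := by
  induction F with
  | leaf i p => rfl
  | gate g a b iha ihb => simp only [ofFml, Fm.refs, iha, ihb]

/-- A formula as a circuit without shared gates. -/
theorem exists_circuit (F : Pool.Agent.TH697.Form.Fml ι D) : ∃ C : Circuit ι D 1 2,
    (∀ x, C.eval x = F.eval x) ∧ C.shared = 0 ∧ C.refs = 0 ∧ C.leaves = F.size := by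
  refine ⟨⟨0, .nil, ofFml F⟩, fun x => ofFml_eval F x _, rfl, ?_, ?_⟩
  · show 0 + (ofFml F : Fm ι D 1 2 0).refs = 0
    rw [ofFml_refs]
  · show 0 + (ofFml F : Fm ι D 1 2 0).leaves = F.size
    rw [ofFml_leaves, zero_add]

end Pool.Agent.TH272.Shr
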