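import Pool.Agent.TH272.Shr.ET
import Pool.Agent.TH272.Shr.Heavy
import Pool.Agent.TH272.Shr.OfFml

set_option autoImplicit false

/-! # Exact triangles: shared gates that depend on many items -/

namespace Pool.Agent.TH272.Shr.ET

open Finset Pool.Agent.TH697.Form Pool.Agent.TH697.Row Pool.Agent.TH697.Form.ET
open Pool.Agent.TH457.Ary.ET (queries exists_b card_str logb_n)
open Pool.Agent.TH272.Shr.ZeroSum (numbers)

variable {n c w : ℕ} {Ω : Type} [Fintype Ω]

theorem main_heavy (hn : 24 ≤ n) (hc : 1 ≤ c) (hw : 1 ≤ w) (μ : Ω → ℝ)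
    (hμ : IsProb μ) (C : Ω → Circuit (Option (Fin n)) (Item n) w (n ^ c))
    (hC : ApproximatesOn μ (fun ω => (C ω).eval) (InRange n (n ^ 2)) (zeroTri n)) (d : ℕ) :
    (n : ℝ) ^ 3 * Nat.log 2 n ≤
      200 * c * w ^ 2 * Nat.log 2 n * mean μ (fun ω => (C ω).leaves) +
        534 * (d * (mean μ (fun ω => (C ω).refs) + mean μ (fun ω => (C ω).shared)) +
          n * (mean μ (fun ω => (C ω).heavyRefs (numbers n) d) +
            mean μ (fun ω => (C ω).heavyGates (numbers n) d))) := by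
  classical
  obtain ⟨b, hb, hb1, hb2, he⟩ := exists_b (n := n) (by omega)
  have h := circuit_heavy μ hμ C (InRange n (n ^ 2)) (zeroTri n) hC
    (Nat.one_le_pow _ _ (by omega)) hw (numbers n) d (T := Str n b) (by
      intro a ha
      rw [numbers, mem_map] at ha
      obtain ⟨i, -, rfl⟩ := ha
      exact queries he hb1 i)
  have hcd : (numbers n).card = n := by rw [numbers, card_map, card_univ, Fintype.card_fin]
  rw [hcd] at h
  have h2 := arith (by exact_mod_cast hn) (by exact_mod_cast hb) (log_b hn hb1 hb2)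
    (Nat.cast_nonneg _) (by exact_mod_cast hc)
    (by exact_mod_cast hw) (card_str hb2) (logb_n hb (by omega) hb2)
    (mean_nonneg μ hμ _) le_rfl (extra_nonneg μ hμ C (numbers n) d n (Nat.cast_nonneg n))
    zero_le_one h
  linarith

theorem single_heavy (hn : 8 ≤ n) (μ : Ω → ℝ)
    (hμ : IsProb μ) (C : Ω → Circuit (Option (Fin n)) (Item n) 1 2)
    (hC : ApproximatesOn μ (fun ω => (C ω).eval) (InRange n (n ^ 2)) (zeroTri n)) (d : ℕ) :
    (n : ℝ) ^ 3 * Nat.log 2 n ≤ 600 * (mean μ (fun ω => (C ω).leaves) +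
      d * (mean μ (fun ω => (C ω).refs) + mean μ (fun ω => (C ω).shared)) +
      n * (mean μ (fun ω => (C ω).heavyRefs (numbers n) d) +
        mean μ (fun ω => (C ω).heavyGates (numbers n) d))) := by
  classical
  obtain ⟨b, hb, hb1, hb2, he⟩ := exists_b (n := n) hn
  have h := circuit_heavy μ hμ C (InRange n (n ^ 2)) (zeroTri n) hC
    (by norm_num) le_rfl (numbers n) d (T := Str n b) (by
      intro a ha
      rw [numbers, mem_map] at ha
      obtain ⟨i, -, rfl⟩ := ha
      exact queries he hb1 i)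
  have hcd : (numbers n).card = n := by rw [numbers, card_map, card_univ, Fintype.card_fin]
  rw [hcd] at h
  rw [Nat.cast_one, sub_self, zero_mul, add_zero, one_mul] at h
  have hn' : (8 : ℝ) ≤ n := by exact_mod_cast hn
  have hb' : (2 : ℝ) ≤ b := by exact_mod_cast hb
  have hN := card_str hb2
  have h0 : (64 : ℝ) ≤ n ^ 2 := by nlinarith
  have h00 : (128 : ℝ) ≤ n ^ 2 * b := by nlinarith
  have h1 : (n : ℝ) ^ 2 * b / 100 ≤ 49 / 600 * ((Fintype.card (Str n b) : ℕ) : ℝ) - 1 := by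
    linarith
  have h2 := mul_le_mul_of_nonneg_left h1 (Nat.cast_nonneg (α := ℝ) n)
  have h5 : (2 / 3 : ℝ) * Nat.log 2 n ≤ b := by
    have h51 : Nat.log 2 n = b + 1 := by
      rw [Nat.log_eq_iff (Or.inl (by omega))]
      exact ⟨hb1, hb2⟩
    have h54 : (Nat.log 2 n : ℝ) = b + 1 := by exact_mod_cast h51
    linarith
  have h6 : (0 : ℝ) ≤ n ^ 3 := by positivity
  have h7 := mul_le_mul_of_nonneg_left h5 h6
  have e1 : (n : ℝ) * (n ^ 2 * b / 100) = n ^ 3 * b / 100 := by ring
  rw [e1] at h2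
  linarith

theorem upper (n W b : ℕ) (hn : 1 ≤ n) (hW : 4 * W < 2 ^ b) :
    ∃ C : Circuit (Option (Fin n)) (Item n) 1 2,
      (∀ x, InRange n W x → C.eval x = zeroTri n x) ∧ C.shared = 0 ∧ C.refs = 0 ∧
        C.leaves ≤ n ^ 3 * (2 * b + 1) := by
  obtain ⟨F, h1, h2⟩ := Pool.Agent.TH697.Form.ET.upper hn W b hW
  obtain ⟨C, c1, c2, c3, c4⟩ := exists_circuit F
  exact ⟨C, fun x hx => (c1 x).trans (h1 x hx), c2, c3, c4.trans_le h2⟩

end Pool.Agent.TH272.Shr.ET
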