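import Pool.Agent.TH272.Shr.MinPlus
import Pool.Agent.TH272.Shr.Heavy
import Pool.Agent.TH272.Shr.OfFml

set_option autoImplicit false

/-! # Shortest paths: shared gates that depend on many items -/

namespace Pool.Agent.TH272.Shr.MinPlus

open Finset Pool.Agent.TH697.Form Pool.Agent.TH697.Row Pool.Agent.TH697.Form.MinPlus
open Pool.Agent.TH457.Ary.MinPlus (queries inRange_mono card_T logb_q)
open Pool.Agent.TH272.Shr.ZeroSum (numbers)

variable {n b c w : ℕ} {Ω : Type} [Fintype Ω]

theorem single_heavy (hn : 5 ≤ n) (hb : 1 ≤ b) (μ : Ω → ℝ)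
    (hμ : IsProb μ) (C : Ω → Circuit (Option (Fin n)) (Item n) 1 2)
    (hC : ApproximatesOn μ (fun ω => (C ω).eval) (InRange n (2 ^ b + 1)) (shortcut n)) (d : ℕ) :
    (n : ℝ) ^ 3 * b ≤ 100 * (mean μ (fun ω => (C ω).leaves) +
      d * (mean μ (fun ω => (C ω).refs) + mean μ (fun ω => (C ω).shared)) +
      n * (mean μ (fun ω => (C ω).heavyRefs (numbers n) d) +
        mean μ (fun ω => (C ω).heavyGates (numbers n) d))) := by
  classical
  have h := circuit_heavy μ hμ C (InRange n (2 ^ b + 1)) (shortcut n) hC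
    (by norm_num) le_rfl (numbers n) d (T := Fin n × Fin n × Fin b) (by
      intro a ha
      rw [numbers, mem_map] at ha
      obtain ⟨i, -, rfl⟩ := ha
      exact queries i)
  have hc : (numbers n).card = n := by rw [numbers, card_map, card_univ, Fintype.card_fin]
  rw [hc, card_T] at h
  rw [Nat.cast_one, sub_self, zero_mul, add_zero, one_mul] at h
  have h2 := arith_one (by exact_mod_cast hn) (by exact_mod_cast hb) le_rfl zero_le_one h
  linarith

theorem main_heavy (hn : 16 ≤ n) (hc : 1 ≤ c) (hw : 1 ≤ w) (μ : Ω → ℝ)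
    (hμ : IsProb μ) (C : Ω → Circuit (Option (Fin n)) (Item n) w (n ^ c))
    (hC : ApproximatesOn μ (fun ω => (C ω).eval) (InRange n (n + 1)) (shortcut n)) (d : ℕ) :
    (n : ℝ) ^ 3 * Nat.log 2 n ≤
      32 * c * w ^ 2 * Nat.log 2 n * mean μ (fun ω => (C ω).leaves) +
        100 * (d * (mean μ (fun ω => (C ω).refs) + mean μ (fun ω => (C ω).shared)) +
          n * (mean μ (fun ω => (C ω).heavyRefs (numbers n) d) +
            mean μ (fun ω => (C ω).heavyGates (numbers n) d))) := by
  classical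
  have hb : 4 ≤ Nat.log 2 n := by
    have := Nat.log_mono_right (b := 2) hn
    rwa [show Nat.log 2 16 = 4 by decide +kernel] at this
  have hb1 : 2 ^ Nat.log 2 n ≤ n := Nat.pow_log_le_self 2 (by omega)
  have hb2 : n < 2 ^ (Nat.log 2 n + 1) := Nat.lt_pow_succ_log_self (by norm_num) n
  have h := circuit_heavy μ hμ C (InRange n (2 ^ Nat.log 2 n + 1)) (shortcut n)
    (fun x hx => hC x (inRange_mono (by omega) x hx))
    (Nat.one_le_pow _ _ (by omega)) hw (numbers n) d
    (T := Fin n × Fin n × Fin (Nat.log 2 n)) (by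
      intro a ha
      rw [numbers, mem_map] at ha
      obtain ⟨i, -, rfl⟩ := ha
      exact queries i)
  have hcd : (numbers n).card = n := by rw [numbers, card_map, card_univ, Fintype.card_fin]
  rw [hcd, card_T] at h
  have h2 := arith (by exact_mod_cast hn) (by exact_mod_cast hb) (by exact_mod_cast hc)
    (by exact_mod_cast hw) (logb_q (by omega) hb hb2)
    (mean_nonneg μ hμ _) le_rfl zero_le_one h
  linarith

theorem upper (n b : ℕ) (hn : 1 ≤ n) : ∃ C : Circuit (Option (Fin n)) (Item n) 1 2,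
    (∀ x, InRange n (2 ^ b - 1) x → C.eval x = shortcut n x) ∧ C.shared = 0 ∧ C.refs = 0 ∧
      C.leaves ≤ n ^ 3 * (4 * b + 1) := by
  obtain ⟨F, h1, h2⟩ := Pool.Agent.TH697.Form.MinPlus.upper hn b
  obtain ⟨C, c1, c2, c3, c4⟩ := exists_circuit F
  exact ⟨C, fun x hx => (c1 x).trans (h1 x hx), c2, c3, c4.trans_le h2⟩

end Pool.Agent.TH272.Shr.MinPlus
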