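import Pool.Agent.TH272.Shr.Tri
import Pool.Agent.TH272.Shr.Heavy

set_option autoImplicit false

/-! # Triangles in lists of edges: shared gates that depend on many items -/

namespace Pool.Agent.TH272.Shr.Tri

open Finset Pool.Agent.TH697.Form Pool.Agent.TH697.Row Pool.Agent.TH457.Ary.Tri
open Pool.Agent.TH457.Ary.Sat (exists_k logb_q)

variable {m w : ℕ} {Ω : Type} [Fintype Ω]

theorem main_heavy (hm : 400 ≤ m) (hw : 1 ≤ w) (μ : Ω → ℝ)
    (hμ : IsProb μ) (C : Ω → Circuit (Fin m) (fun _ => Edge (2 * m)) w (4 * m ^ 2))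
    (hC : ApproximatesOn μ (fun ω => (C ω).eval) Simple triangle) (d : ℕ) :
    (m : ℝ) ^ 2 * Nat.log 2 m ≤ 150 * w ^ 2 * Nat.log 2 m * mean μ (fun ω => (C ω).leaves) +
      229 * (d * (mean μ (fun ω => (C ω).refs) + mean μ (fun ω => (C ω).shared)) +
        m * (mean μ (fun ω => (C ω).heavyRefs univ d) +
          mean μ (fun ω => (C ω).heavyGates univ d))) := by
  obtain ⟨k, hk, hk1, hk2⟩ := exists_k hm
  have h := circuit_heavy μ hμ C Simple triangle hC (Nat.mul_pos (by norm_num)
    (pow_pos (by omega) 2)) hw univ d (T := Fin (M m k) × Fin k)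
    (fun p _ => queries (by omega) hk1 p)
  rw [card_univ, Fintype.card_fin] at h
  have h2 := arith (by exact_mod_cast hm) (by exact_mod_cast hk) (log_k hm hk2)
    (Nat.cast_nonneg _) (by exact_mod_cast hw)
    (card_T (by omega) hk1) (logb_q hk (by omega) hk2)
    (mean_nonneg μ hμ _) (extra_nonneg μ hμ C univ d m (Nat.cast_nonneg m)) le_rfl
    zero_le_one h
  linarith

theorem single_heavy (hm : 400 ≤ m) (μ : Ω → ℝ)
    (hμ : IsProb μ) (C : Ω → Circuit (Fin m) (fun _ => Edge (2 * m)) 1 2)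
    (hC : ApproximatesOn μ (fun ω => (C ω).eval) Simple triangle) (d : ℕ) :
    (m : ℝ) ^ 2 * Nat.log 2 m ≤ 229 * (mean μ (fun ω => (C ω).leaves) +
      d * (mean μ (fun ω => (C ω).refs) + mean μ (fun ω => (C ω).shared)) +
      m * (mean μ (fun ω => (C ω).heavyRefs univ d) +
        mean μ (fun ω => (C ω).heavyGates univ d))) := by
  obtain ⟨k, hk, hk1, hk2⟩ := exists_k hm
  have h := circuit_heavy μ hμ C Simple triangle hC (by norm_num) le_rfl univ d
    (T := Fin (M m k) × Fin k) (fun p _ => queries (by omega) hk1 p)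
  rw [card_univ, Fintype.card_fin] at h
  rw [Nat.cast_one, sub_self, zero_mul, add_zero, one_mul] at h
  have h2 := arith_one (by exact_mod_cast hm) (by exact_mod_cast hk) (log_k hm hk2)
    (card_T (by omega) hk1)
    (mean_nonneg μ hμ _) (extra_nonneg μ hμ C univ d m (Nat.cast_nonneg m)) le_rfl
    zero_le_one h
  linarith

end Pool.Agent.TH272.Shr.Tri
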