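import Pool.Agent.TH457.Ary.Defs

set_option autoImplicit false

/-!
# Circuits with local sharing whose leaves are tests of several items

A circuit over the full binary basis in which the values of `k` gates are used more than once is a
sequence of `k + 1` formulas, one for each shared gate and one for the output; a leaf of a formula is
a test of the input or a reference to the value of an earlier formula. The number of references is
the total fan-out of the shared gates. The circuit is a formula if and only if `k = 0`.
-/

namespace Pool.Agent.TH272.Shr

open Pool.Agent.TH457.Ary (Test)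

/-- Formulas. The input consists of items `x i`, `i : ι`, and `k` bits have been computed before. A
leaf is a test (a Boolean function of at most `w` items, each of which is seen through an arbitrary
function with `q` values) or one of the `k` bits, a gate is an arbitrary function of two bits. -/
inductive Fm (ι : Type) (D : ι → Type) (w q k : ℕ) : Type
  | leaf : Test ι D w q → Fm ι D w q k
  | ref : Fin k → Fm ι D w q k
  | gate : (Bool → Bool → Bool) → Fm ι D w q k → Fm ι D w q k → Fm ι D w q k

namespace Fm

variable {ι : Type} {D : ι → Type} {w q k : ℕ}

/-- The value of the formula. -/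
def eval : Fm ι D w q k → (∀ i, D i) → (Fin k → Bool) → Bool
  | leaf τ, x, _ => τ.eval x
  | ref j, _, v => v j
  | gate g a b, x, v => g (a.eval x v) (b.eval x v)

/-- The number of leaves that test the input. -/
def leaves : Fm ι D w q k → ℕ
  | leaf _ => 1
  | ref _ => 0
  | gate _ a b => a.leaves + b.leaves

/-- The number of references to bits computed before. -/
def refs : Fm ι D w q k → ℕ
  | leaf _ => 0
  | ref _ => 1
  | gate _ a b => a.refs + b.refs

/-- The items on which the formula depends, if the bit `j` depends on the items in `V j`. -/
def items [DecidableEq ι] (V : Fin k → Finset ι) : Fm ι D w q k → Finset ι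
  | leaf τ => Finset.univ.image τ.item
  | ref j => V j
  | gate _ a b => a.items V ∪ b.items V

end Fm

/-- Sequences of `k` formulas; each formula may refer to the values of the earlier ones. -/
inductive Prog (ι : Type) (D : ι → Type) (w q : ℕ) : ℕ → Type
  | nil : Prog ι D w q 0
  | snoc : {k : ℕ} → Prog ι D w q k → Fm ι D w q k → Prog ι D w q (k + 1)

namespace Prog

variable {ι : Type} {D : ι → Type} {w q : ℕ}

/-- The values of the formulas. -/
def eval : {k : ℕ} → Prog ι D w q k → (∀ i, D i) → Fin k → Bool
  | _, nil, _ => Fin.elim0
  | _, snoc P φ, x => Fin.snoc (P.eval x) (φ.eval x (P.eval x))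

/-- The number of leaves that test the input. -/
def leaves : {k : ℕ} → Prog ι D w q k → ℕ
  | _, nil => 0
  | _, snoc P φ => P.leaves + φ.leaves

/-- The number of references. -/
def refs : {k : ℕ} → Prog ι D w q k → ℕ
  | _, nil => 0
  | _, snoc P φ => P.refs + φ.refs

/-- The items on which the formulas depend, directly or by references. -/
def items [DecidableEq ι] : {k : ℕ} → Prog ι D w q k → Fin k → Finset ι
  | _, nil => Fin.elim0
  | _, snoc P φ => Fin.snoc (α := fun _ => Finset ι) P.items (φ.items P.items)

end Prog

/-- Circuits. -/
structure Circuit (ι : Type) (D : ι → Type) (w q : ℕ) : Type where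
  /-- the number of the gates whose values are shared -/
  shared : ℕ
  /-- the formulas for the shared gates -/
  gates : Prog ι D w q shared
  /-- the formula for the output -/
  output : Fm ι D w q shared

namespace Circuit

variable {ι : Type} {D : ι → Type} {w q : ℕ}

/-- The value of the circuit. -/
def eval (C : Circuit ι D w q) (x : ∀ i, D i) : Bool := C.output.eval x (C.gates.eval x)

/-- The number of leaves that test the input. -/
def leaves (C : Circuit ι D w q) : ℕ := C.gates.leaves + C.output.leaves

/-- The number of references to shared gates. -/
def refs (C : Circuit ι D w q) : ℕ := C.gates.refs + C.output.refs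

/-- Each shared gate depends on at most `d` of the items in `I`. -/
def IsLocal [DecidableEq ι] (I : Finset ι) (d : ℕ) (C : Circuit ι D w q) : Prop :=
  ∀ j, (I ∩ C.gates.items j).card ≤ d

end Circuit

/-- The expected value of a quantity. -/
def mean {Ω : Type} [Fintype Ω] (μ : Ω → ℝ) (a : Ω → ℕ) : ℝ := ∑ ω, μ ω * (a ω : ℝ)

end Pool.Agent.TH272.Shr
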