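import Pool.Agent.TH457.Ary.Core
import Pool.Agent.TH272.Shr.Defs

set_option autoImplicit false

/-! # A lower bound for random circuits with local sharing -/

namespace Pool.Agent.TH272.Shr

open Finset Pool.Agent.TH697.Form Pool.Agent.TH697.Row
open Pool.Agent.TH457.Ary (Test merge Queries gen)

variable {ι : Type} {D : ι → Type} [DecidableEq ι] {w q : ℕ}

namespace Fm

variable {k : ℕ}

/-- The number of leaves that see item `b`. -/
def reads (b : ι) : Fm ι D w q k → ℕ
  | leaf τ => if τ.Sees id b then 1 else 0
  | ref _ => 0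
  | gate _ F G => F.reads b + G.reads b

/-- The number of references to bits that depend on item `b`. -/
def refsTo (V : Fin k → Finset ι) (b : ι) : Fm ι D w q k → ℕ
  | leaf _ => 0
  | ref j => if b ∈ V j then 1 else 0
  | gate _ F G => F.refsTo V b + G.refsTo V b

theorem mem_items_iff (V : Fin k → Finset ι) (b : ι) (F : Fm ι D w q k) :
    b ∈ F.items V ↔ F.reads b + F.refsTo V b ≠ 0 := by
  induction F with
  | leaf τ =>
    simp only [items, reads, refsTo, mem_image, mem_univ, true_and, add_zero]
    by_cases hτ : τ.Sees id b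
    · simp only [hτ, if_true]
      obtain ⟨k, hk⟩ := hτ
      simp only [id] at hk
      exact ⟨fun _ => one_ne_zero, fun _ => ⟨k, hk⟩⟩
    · simp only [hτ, if_false]
      refine ⟨fun ⟨k, hk⟩ => absurd ⟨k, hk⟩ hτ, fun h => absurd rfl h⟩
  | ref j =>
    simp only [items, reads, refsTo]
    by_cases hj : b ∈ V j <;> simp [hj]
  | gate g a c iha ihc =>
    simp only [items, reads, refsTo, mem_union, iha, ihc]
    omega

theorem eval_const (V : Fin k → Finset ι) (b : ι) (F : Fm ι D w q k)
    (h : F.reads b + F.refsTo V b = 0) (y z : ∀ i, D i) (v v' : Fin k → Bool)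
    (hv : ∀ j, b ∉ V j → v j = v' j) : F.eval (merge id b y z) v = F.eval z v' := by
  induction F with
  | leaf τ =>
    have hτ : ¬ τ.Sees id b := by
      intro hτ
      simp [reads, hτ] at h
    exact τ.eval_merge_of_not id b hτ y z
  | ref j =>
    have hj : b ∉ V j := by
      intro hj
      simp [reads, refsTo, hj] at h
    exact hv j hj
  | gate g a c iha ihc =>
    simp only [reads, refsTo] at h
    simp only [eval]
    rw [iha (by omega), ihc (by omega)]

theorem sum_reads_le (I : Finset ι) (F : Fm ι D w q k) :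
    ∑ b ∈ I, F.reads b ≤ w * F.leaves := by
  induction F with
  | leaf τ =>
    simp only [reads, leaves]
    rw [← card_filter, mul_one]
    exact τ.card_sees id I
  | ref j => simp [reads]
  | gate g a c iha ihc =>
    simp only [reads, leaves, sum_add_distrib]
    rw [mul_add]
    omega

theorem sum_refsTo_le (I : Finset ι) (V : Fin k → Finset ι) (d : ℕ)
    (hV : ∀ j, (I ∩ V j).card ≤ d) (F : Fm ι D w q k) :
    ∑ b ∈ I, F.refsTo V b ≤ d * F.refs := by
  induction F with
  | leaf τ => simp [refsTo]
  | ref j =>
    simp only [refsTo, refs]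
    rw [← card_filter, mul_one, filter_mem_eq_inter]
    exact hV j
  | gate g a c iha ihc =>
    simp only [refsTo, refs, sum_add_distrib]
    rw [mul_add]
    omega

open Classical in
/-- Few subfunctions. -/
theorem subfunctions_pos (V : Fin k → Finset ι) (b : ι) (f : (∀ i, D i) → Fin k → Bool)
    (F : Fm ι D w q k) (h : 1 ≤ F.reads b + F.refsTo V b) :
    ∃ S : Finset ((∀ i, D i) → Bool),
      S.card ≤ 4 ^ (2 * (F.reads b + F.refsTo V b) - 1) * (q ^ (w - 1)) ^ F.reads b ∧
      ∀ (z : ∀ i, D i) (v : Fin k → Bool) (u : Bool → Bool),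
        (fun y => u (F.eval (merge id b y z) (fun j => if b ∈ V j then f y j else v j))) ∈ S := by
  induction F with
  | leaf τ =>
    by_cases hτ : τ.Sees id b
    · obtain ⟨S, hS1, hS2⟩ := τ.family id b hτ
      refine ⟨((univ : Finset (Bool → Bool)) ×ˢ S).image (fun p => fun y => p.1 (p.2 y)), ?_, ?_⟩
      · refine card_image_le.trans ?_
        rw [card_product]
        simp only [reads, refsTo, if_pos hτ, pow_one, add_zero]
        have e1 : (univ : Finset (Bool → Bool)).card = 4 := by simp
        rw [e1]
        exact Nat.mul_le_mul_left _ hS1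
      · intro z v u
        rw [mem_image]
        exact ⟨(u, fun y => τ.eval (merge id b y z)), mem_product.2 ⟨mem_univ _, hS2 z⟩, rfl⟩
    · simp [reads, refsTo, hτ] at h
  | ref j =>
    have hj : b ∈ V j := by
      by_contra hj
      simp [reads, refsTo, hj] at h
    refine ⟨(univ : Finset (Bool → Bool)).image (fun p => fun y => p (f y j)), ?_, ?_⟩
    · refine card_image_le.trans ?_
      have e1 : (univ : Finset (Bool → Bool)).card = 4 := by simp
      rw [e1]
      simp [reads, refsTo, hj]
    · intro z v u
      rw [mem_image]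
      refine ⟨u, mem_univ _, ?_⟩
      funext y
      simp [eval, hj]
  | gate g a c iha ihc =>
    simp only [reads, refsTo] at h
    by_cases ha : a.reads b + a.refsTo V b = 0
    · obtain ⟨S, h1, h2⟩ := ihc (by omega)
      have ha1 : a.reads b = 0 := by omega
      have ha2 : a.refsTo V b = 0 := by omega
      refine ⟨S, by simpa [reads, refsTo, ha1, ha2] using h1, fun z v u => ?_⟩
      have h3 := h2 z v (fun y => u (g (a.eval z v) y))
      have h4 : ∀ y, a.eval (merge id b y z) (fun j => if b ∈ V j then f y j else v j) =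
          a.eval z v := fun y => eval_const V b a ha y z _ _ fun j hj => by simp [hj]
      simp only [eval, h4]
      exact h3
    by_cases hc : c.reads b + c.refsTo V b = 0
    · obtain ⟨S, h1, h2⟩ := iha (by omega)
      have hc1 : c.reads b = 0 := by omega
      have hc2 : c.refsTo V b = 0 := by omega
      refine ⟨S, by simpa [reads, refsTo, hc1, hc2] using h1, fun z v u => ?_⟩
      have h3 := h2 z v (fun y => u (g y (c.eval z v)))
      have h4 : ∀ y, c.eval (merge id b y z) (fun j => if b ∈ V j then f y j else v j) =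
          c.eval z v := fun y => eval_const V b c hc y z _ _ fun j hj => by simp [hj]
      simp only [eval, h4]
      exact h3
    obtain ⟨S1, h1, h2⟩ := iha (by omega)
    obtain ⟨S2, h3, h4⟩ := ihc (by omega)
    refine ⟨((univ : Finset (Bool → Bool)) ×ˢ S1 ×ˢ S2).image
      (fun p => fun y => p.1 (g (p.2.1 y) (p.2.2 y))), ?_, fun z v u => ?_⟩
    · refine card_image_le.trans ?_
      rw [card_product, card_product]
      have e1 : (univ : Finset (Bool → Bool)).card = 4 := by simp
      rw [e1]
      calc 4 * (S1.card * S2.card)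
          ≤ 4 * ((4 ^ (2 * (a.reads b + a.refsTo V b) - 1) * (q ^ (w - 1)) ^ a.reads b) *
              (4 ^ (2 * (c.reads b + c.refsTo V b) - 1) * (q ^ (w - 1)) ^ c.reads b)) :=
            Nat.mul_le_mul_left _ (Nat.mul_le_mul h1 h3)
        _ = (4 * (4 ^ (2 * (a.reads b + a.refsTo V b) - 1) *
              4 ^ (2 * (c.reads b + c.refsTo V b) - 1))) *
              (q ^ (w - 1)) ^ (a.reads b + c.reads b) := by
            rw [pow_add (q ^ (w - 1))]
            ring
        _ = 4 ^ (2 * ((Fm.gate g a c).reads b + (Fm.gate g a c).refsTo V b) - 1) *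
              (q ^ (w - 1)) ^ (Fm.gate g a c).reads b := by
            rw [← pow_add, ← pow_succ']
            congr 2
            simp only [reads, refsTo]
            omega
    · rw [mem_image]
      refine ⟨(u, fun y => a.eval (merge id b y z) (fun j => if b ∈ V j then f y j else v j),
        fun y => c.eval (merge id b y z) (fun j => if b ∈ V j then f y j else v j)), ?_, rfl⟩
      rw [mem_product, mem_product]
      exact ⟨mem_univ _, h2 z v id, h4 z v id⟩

open Classical in
theorem subfunctions (V : Fin k → Finset ι) (b : ι) (f : (∀ i, D i) → Fin k → Bool)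
    (F : Fm ι D w q k) :
    ∃ S : Finset ((∀ i, D i) → Bool),
      S.card ≤ 2 * 16 ^ F.refsTo V b * (16 * q ^ (w - 1)) ^ F.reads b ∧
      ∀ (z : ∀ i, D i) (v : Fin k → Bool),
        (fun y => F.eval (merge id b y z) (fun j => if b ∈ V j then f y j else v j)) ∈ S := by
  by_cases h : F.reads b + F.refsTo V b = 0
  · refine ⟨(univ : Finset Bool).image (fun c => fun _ => c), ?_, fun x v => ?_⟩
    · refine card_image_le.trans ?_
      have h1 : F.reads b = 0 := by omega
      have h2 : F.refsTo V b = 0 := by omega
      simp [h1, h2]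
    · rw [mem_image]
      refine ⟨F.eval x v, mem_univ _, ?_⟩
      funext y
      exact (eval_const V b F h y x _ _ fun j hj => by simp [hj]).symm
  · obtain ⟨S, h1, h2⟩ := subfunctions_pos V b f F (by omega)
    refine ⟨S, h1.trans ?_, fun x v => h2 x v id⟩
    rw [mul_pow]
    have h3 : 4 ^ (2 * (F.reads b + F.refsTo V b) - 1) ≤
        2 * 16 ^ F.refsTo V b * 16 ^ F.reads b := by
      calc 4 ^ (2 * (F.reads b + F.refsTo V b) - 1) ≤ 4 ^ (2 * (F.reads b + F.refsTo V b)) :=
            Nat.pow_le_pow_right (by norm_num) (by omega)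
        _ = 16 ^ (F.reads b + F.refsTo V b) := by rw [pow_mul]; norm_num
        _ = 16 ^ F.refsTo V b * 16 ^ F.reads b := by rw [add_comm, pow_add]
        _ ≤ 2 * 16 ^ F.refsTo V b * 16 ^ F.reads b :=
            Nat.mul_le_mul_right _ (by omega)
    calc _ ≤ (2 * 16 ^ F.refsTo V b * 16 ^ F.reads b) * (q ^ (w - 1)) ^ F.reads b :=
          Nat.mul_le_mul_right _ h3
      _ = _ := by ring

end Fm

namespace Prog

/-- The number of leaves that see item `b`. -/
def reads (b : ι) : {k : ℕ} → Prog ι D w q k → ℕ
  | _, nil => 0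
  | _, snoc P φ => P.reads b + φ.reads b

/-- The number of references to formulas that depend on item `b`. -/
def refsTo (b : ι) : {k : ℕ} → Prog ι D w q k → ℕ
  | _, nil => 0
  | _, snoc P φ => P.refsTo b + φ.refsTo P.items b

/-- The number of formulas that depend on item `b`. -/
def count (b : ι) : {k : ℕ} → Prog ι D w q k → ℕ
  | _, nil => 0
  | _, snoc P φ => P.count b + if b ∈ φ.items P.items then 1 else 0

theorem sum_reads_le (I : Finset ι) : ∀ {k : ℕ} (P : Prog ι D w q k),
    ∑ b ∈ I, P.reads b ≤ w * P.leaves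
  | _, nil => by simp [reads]
  | _, snoc P φ => by
    simp only [reads, leaves, sum_add_distrib, mul_add]
    exact Nat.add_le_add (sum_reads_le I P) (Fm.sum_reads_le I φ)

theorem sum_refsTo_le (I : Finset ι) (d : ℕ) : ∀ {k : ℕ} (P : Prog ι D w q k),
    (∀ j, (I ∩ P.items j).card ≤ d) → ∑ b ∈ I, P.refsTo b ≤ d * P.refs
  | _, nil, _ => by simp [refsTo]
  | k + 1, snoc P φ, h => by
    have h1 : ∀ j, (I ∩ P.items j).card ≤ d := by
      intro j
      have := h j.castSucc
      simpa [items] using this
    simp only [refsTo, refs, sum_add_distrib, mul_add]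
    exact Nat.add_le_add (sum_refsTo_le I d P h1) (Fm.sum_refsTo_le I _ d h1 φ)

theorem sum_count_le (I : Finset ι) (d : ℕ) : ∀ {k : ℕ} (P : Prog ι D w q k),
    (∀ j, (I ∩ P.items j).card ≤ d) → ∑ b ∈ I, P.count b ≤ d * k
  | _, nil, _ => by simp [count]
  | k + 1, snoc P φ, h => by
    have h1 : ∀ j, (I ∩ P.items j).card ≤ d := by
      intro j
      have := h j.castSucc
      simpa [items] using this
    have h2 : (I ∩ φ.items P.items).card ≤ d := by
      have := h (Fin.last k)
      simpa [items] using this
    have h3 : ∑ b ∈ I, (if b ∈ φ.items P.items then 1 else 0) ≤ d := by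
      rw [← card_filter, filter_mem_eq_inter]
      exact h2
    simp only [count, sum_add_distrib, mul_add, mul_one]
    exact Nat.add_le_add (sum_count_le I d P h1) h3

theorem eval_const (b : ι) : ∀ {k : ℕ} (P : Prog ι D w q k) (j : Fin k) (_ : b ∉ P.items j)
    (y z : ∀ i, D i), P.eval (merge id b y z) j = P.eval z j
  | _, nil, j, _, _, _ => j.elim0
  | k + 1, snoc P φ, j, h, y, z => by
    revert h
    refine Fin.lastCases ?_ (fun j => ?_) j
    · intro h
      have h' : b ∉ φ.items P.items := by simpa [items] using h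
      rw [Fm.mem_items_iff, not_not] at h'
      simp only [eval, Fin.snoc_last]
      exact Fm.eval_const P.items b φ h' y z _ _ fun j hj => eval_const b P j hj y z
    · intro h
      have h' : b ∉ P.items j := by simpa [items] using h
      simp only [eval, Fin.snoc_castSucc]
      exact eval_const b P j h' y z

open Classical in
theorem subfunctions (b : ι) : ∀ {k : ℕ} (P : Prog ι D w q k),
    ∃ S : Finset ((∀ i, D i) → Fin k → Bool),
      S.card ≤ 2 ^ P.count b * 16 ^ P.refsTo b * (16 * q ^ (w - 1)) ^ P.reads b ∧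
      ∀ z : ∀ i, D i,
        (fun y j => if b ∈ P.items j then P.eval (merge id b y z) j else false) ∈ S
  | _, nil => by
    refine ⟨{fun _ => Fin.elim0}, by simp [reads, refsTo, count], fun x => ?_⟩
    rw [mem_singleton]
    funext y j
    exact j.elim0
  | k + 1, snoc P φ => by
    obtain ⟨S, hS, hm⟩ := subfunctions b P
    by_cases hb : b ∈ φ.items P.items
    · choose T hT hT2 using fun f : (∀ i, D i) → Fin k → Bool => Fm.subfunctions P.items b f φ
      refine ⟨S.biUnion fun f => (T f).image fun g => fun y => (Fin.snoc (f y) (g y) :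
        Fin (k + 1) → Bool), ?_, fun z => ?_⟩
      · refine card_biUnion_le.trans ?_
        calc ∑ f ∈ S, ((T f).image fun g => fun y => (Fin.snoc (f y) (g y) :
              Fin (k + 1) → Bool)).card
            ≤ ∑ f ∈ S, 2 * 16 ^ φ.refsTo P.items b * (16 * q ^ (w - 1)) ^ φ.reads b :=
              sum_le_sum fun f _ => card_image_le.trans (hT f)
          _ = S.card * (2 * 16 ^ φ.refsTo P.items b * (16 * q ^ (w - 1)) ^ φ.reads b) := by
              rw [sum_const, smul_eq_mul]
          _ ≤ (2 ^ P.count b * 16 ^ P.refsTo b * (16 * q ^ (w - 1)) ^ P.reads b) *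
                (2 * 16 ^ φ.refsTo P.items b * (16 * q ^ (w - 1)) ^ φ.reads b) :=
              Nat.mul_le_mul_right _ hS
          _ = 2 ^ (snoc P φ).count b * 16 ^ (snoc P φ).refsTo b *
                (16 * q ^ (w - 1)) ^ (snoc P φ).reads b := by
              simp only [reads, refsTo, count, if_pos hb]
              ring
      · rw [mem_biUnion]
        refine ⟨_, hm z, ?_⟩
        rw [mem_image]
        refine ⟨_, hT2 (fun y j => if b ∈ P.items j then P.eval (merge id b y z) j else false) z
          (P.eval z), ?_⟩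
        funext y j
        have h1 : (fun j => if b ∈ P.items j then
            (if b ∈ P.items j then P.eval (merge id b y z) j else false) else P.eval z j) =
            P.eval (merge id b y z) := by
          funext j
          by_cases hj : b ∈ P.items j
          · simp [hj]
          · simp only [hj, if_false]
            exact (eval_const b P j hj y z).symm
        refine Fin.lastCases ?_ (fun j => ?_) j
        · simp only [Fin.snoc_last, items, eval, hb, if_true]
          rw [h1]
        · simp only [Fin.snoc_castSucc, items, eval]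
    · refine ⟨S.image fun f => fun y => (Fin.snoc (f y) false : Fin (k + 1) → Bool), ?_,
        fun z => ?_⟩
      · refine card_image_le.trans (hS.trans (le_of_eq ?_))
        have h1 := (Fm.mem_items_iff P.items b φ).not.1 hb
        rw [not_not] at h1
        have h2 : φ.reads b = 0 := by omega
        have h3 : φ.refsTo P.items b = 0 := by omega
        simp only [reads, refsTo, count, if_neg hb, h2, h3, add_zero]
      · rw [mem_image]
        refine ⟨_, hm z, ?_⟩
        funext y j
        refine Fin.lastCases ?_ (fun j => ?_) j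
        · simp only [Fin.snoc_last, items, hb, if_false]
        · simp only [Fin.snoc_castSucc, items, eval]

end Prog

namespace Circuit

open Classical in
theorem subfunctions (b : ι) (C : Circuit ι D w q) :
    ∃ S : Finset ((∀ i, D i) → Bool),
      S.card ≤ 2 ^ (1 + C.gates.count b) *
        16 ^ (C.gates.refsTo b + C.output.refsTo C.gates.items b) *
        (16 * q ^ (w - 1)) ^ (C.gates.reads b + C.output.reads b) ∧
      ∀ z : ∀ i, D i, (fun y => C.eval (merge id b y z)) ∈ S := by
  obtain ⟨S, hS, hm⟩ := Prog.subfunctions b C.gates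
  choose T hT hT2 using fun f : (∀ i, D i) → Fin C.shared → Bool =>
    Fm.subfunctions C.gates.items b f C.output
  refine ⟨S.biUnion fun f => T f, ?_, fun z => ?_⟩
  · refine card_biUnion_le.trans ?_
    calc ∑ f ∈ S, (T f).card
        ≤ ∑ f ∈ S, 2 * 16 ^ C.output.refsTo C.gates.items b *
            (16 * q ^ (w - 1)) ^ C.output.reads b := sum_le_sum fun f _ => hT f
      _ = S.card * (2 * 16 ^ C.output.refsTo C.gates.items b *
            (16 * q ^ (w - 1)) ^ C.output.reads b) := by
          rw [sum_const, smul_eq_mul]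
      _ ≤ (2 ^ C.gates.count b * 16 ^ C.gates.refsTo b *
            (16 * q ^ (w - 1)) ^ C.gates.reads b) *
            (2 * 16 ^ C.output.refsTo C.gates.items b *
            (16 * q ^ (w - 1)) ^ C.output.reads b) := Nat.mul_le_mul_right _ hS
      _ = _ := by ring
  · rw [mem_biUnion]
    refine ⟨_, hm z, ?_⟩
    have h2 := hT2 (fun y j => if b ∈ C.gates.items j then C.gates.eval (merge id b y z) j
      else false) z (C.gates.eval z)
    have h1 : ∀ y, (fun j => if b ∈ C.gates.items j then
        (if b ∈ C.gates.items j then C.gates.eval (merge id b y z) j else false) else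
          C.gates.eval z j) = C.gates.eval (merge id b y z) := by
      intro y
      funext j
      by_cases hj : b ∈ C.gates.items j
      · simp [hj]
      · simp only [hj, if_false]
        exact (Prog.eval_const b C.gates j hj y z).symm
    simp only [h1] at h2
    exact h2

end Circuit

section

variable {T : Type} [Fintype T] {Ω : Type} [Fintype Ω]

theorem mean_nonneg (μ : Ω → ℝ) (hμ : IsProb μ) (a : Ω → ℕ) : 0 ≤ mean μ a :=
  sum_nonneg fun ω _ => mul_nonneg (hμ.nonneg ω) (Nat.cast_nonneg _)

/-- The lower bound: if each item in `I` can query the bits of a string indexed by `T`, then a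
random circuit has many leaves, or many references to gates that depend on many items. -/
theorem circuit_lower (μ : Ω → ℝ) (hμ : IsProb μ) (C : Ω → Circuit ι D w q)
    (P : (∀ i, D i) → Prop) (f : (∀ i, D i) → Bool)
    (hF : ApproximatesOn μ (fun ω => (C ω).eval) P f) (hq : 1 ≤ q) (hw : 1 ≤ w)
    (I : Finset ι) (d : ℕ) (hC : ∀ ω, (C ω).IsLocal I d) (h : ∀ b ∈ I, Queries T id P f b) :
    (I.card : ℝ) * ((49 / 600 : ℝ) * Fintype.card T - 1) ≤
      w * (4 + (w - 1) * Real.logb 2 q) * mean μ (fun ω => (C ω).leaves) +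
        d * (4 * mean μ (fun ω => (C ω).refs) + mean μ (fun ω => (C ω).shared)) := by
  classical
  have h6 : (0 : ℝ) < Real.log 2 := Real.log_pos (by norm_num)
  have hlq : 0 ≤ Real.log (q : ℝ) := Real.log_nonneg (by exact_mod_cast hq)
  have hw' : ((w - 1 : ℕ) : ℝ) = (w : ℝ) - 1 := by
    rw [Nat.cast_sub hw, Nat.cast_one]
  have hw1 : (0 : ℝ) ≤ (w : ℝ) - 1 := by rw [← hw']; positivity
  obtain ⟨c, hc⟩ : ∃ c : ℝ, c = 4 * Real.log 2 + (w - 1) * Real.log q := ⟨_, rfl⟩
  have hc0 : 0 ≤ c := by rw [hc]; positivity
  obtain ⟨l, hl⟩ : ∃ l : ℝ, l = Real.log 2 := ⟨_, rfl⟩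
  have h1 : ∀ b ∈ I, (49 / 600 : ℝ) * Fintype.card T * l
      ≤ ∑ ω, μ ω * (l + l * ((C ω).gates.count b : ℝ) +
        4 * l * (((C ω).gates.refsTo b : ℝ) + ((C ω).output.refsTo (C ω).gates.items b : ℝ)) +
        c * (((C ω).gates.reads b : ℝ) + ((C ω).output.reads b : ℝ))) := by
    intro b hb
    choose S hS1 hS2 using fun ω => Circuit.subfunctions b (C ω)
    have hg := gen μ hμ (fun ω => (C ω).eval) P f hF id b S (fun ω z => hS2 ω z) (h b hb)
    rw [← hl] at hg
    refine hg.trans ?_
    apply sum_le_sum
    intro ω _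
    apply mul_le_mul_of_nonneg_left _ (hμ.nonneg ω)
    obtain ⟨-, -, R, -⟩ := h b hb
    have hne : 1 ≤ (S ω).card := card_pos.2 ⟨_, hS2 ω (R (fun _ => false))⟩
    have h2 : ((S ω).card : ℝ) ≤ 2 ^ (1 + (C ω).gates.count b) *
        16 ^ ((C ω).gates.refsTo b + (C ω).output.refsTo (C ω).gates.items b) *
        (16 * (q : ℝ) ^ (w - 1)) ^ ((C ω).gates.reads b + (C ω).output.reads b) := by
      exact_mod_cast hS1 ω
    have h4 := Real.log_le_log (by exact_mod_cast hne) h2
    have hq' : (0 : ℝ) < q := by exact_mod_cast hq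
    rw [Real.log_mul (by positivity) (by positivity), Real.log_mul (by positivity) (by positivity),
      Real.log_pow, Real.log_pow, Real.log_pow,
      Real.log_mul (by norm_num) (by positivity), Real.log_pow, hw',
      show (16 : ℝ) = 2 ^ 4 by norm_num, Real.log_pow] at h4
    push_cast at h4
    rw [← hl] at h4 hc
    rw [hc]
    linarith
  have h2 := sum_le_sum h1
  rw [sum_const, nsmul_eq_mul, sum_comm] at h2
  have h3 : ∑ ω, ∑ b ∈ I, μ ω * (l + l * ((C ω).gates.count b : ℝ) +
        4 * l * (((C ω).gates.refsTo b : ℝ) + ((C ω).output.refsTo (C ω).gates.items b : ℝ)) +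
        c * (((C ω).gates.reads b : ℝ) + ((C ω).output.reads b : ℝ))) ≤
      I.card * l + d * l * (4 * mean μ (fun ω => (C ω).refs) + mean μ (fun ω => (C ω).shared)) +
        c * w * mean μ (fun ω => (C ω).leaves) := by
    have e1 : I.card * l + d * l * (4 * mean μ (fun ω => (C ω).refs) +
        mean μ (fun ω => (C ω).shared)) + c * w * mean μ (fun ω => (C ω).leaves) =
        ∑ ω, μ ω * (I.card * l + d * l * (4 * (C ω).refs + (C ω).shared) +
          c * w * (C ω).leaves) := by
      unfold mean
      have e2 : ∀ ω, μ ω * (I.card * l + d * l * (4 * ((C ω).refs : ℝ) + (C ω).shared) +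
          c * w * (C ω).leaves) =
          I.card * l * μ ω + 4 * (d * l) * (μ ω * ((C ω).refs : ℝ)) +
            d * l * (μ ω * ((C ω).shared : ℝ)) +
            c * w * (μ ω * ((C ω).leaves : ℝ)) := fun ω => by ring
      rw [sum_congr rfl (fun ω _ => e2 ω), sum_add_distrib, sum_add_distrib, sum_add_distrib,
        ← mul_sum, ← mul_sum, ← mul_sum, ← mul_sum, hμ.sum_one]
      ring
    rw [e1]
    apply sum_le_sum
    intro ω _
    rw [← mul_sum]
    apply mul_le_mul_of_nonneg_left _ (hμ.nonneg ω)
    rw [sum_add_distrib, sum_add_distrib, sum_add_distrib, sum_const, nsmul_eq_mul, ← mul_sum,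
      ← mul_sum, ← mul_sum, sum_add_distrib, sum_add_distrib]
    have h5 : ∑ b ∈ I, ((C ω).gates.reads b : ℝ) + ∑ b ∈ I, ((C ω).output.reads b : ℝ) ≤
        w * (C ω).leaves := by
      have e3 : ∑ b ∈ I, (C ω).gates.reads b + ∑ b ∈ I, (C ω).output.reads b ≤
          w * (C ω).leaves := by
        unfold Circuit.leaves
        rw [mul_add]
        exact Nat.add_le_add (Prog.sum_reads_le I _) (Fm.sum_reads_le I _)
      exact_mod_cast e3
    have h7 : ∑ b ∈ I, ((C ω).gates.refsTo b : ℝ) +
        ∑ b ∈ I, ((C ω).output.refsTo (C ω).gates.items b : ℝ) ≤ d * (C ω).refs := by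
      have e3 : ∑ b ∈ I, (C ω).gates.refsTo b +
          ∑ b ∈ I, (C ω).output.refsTo (C ω).gates.items b ≤ d * (C ω).refs := by
        unfold Circuit.refs
        rw [mul_add]
        exact Nat.add_le_add (Prog.sum_refsTo_le I d _ (hC ω))
          (Fm.sum_refsTo_le I _ d (hC ω) _)
      exact_mod_cast e3
    have h8 : ∑ b ∈ I, ((C ω).gates.count b : ℝ) ≤ d * (C ω).shared := by
      exact_mod_cast Prog.sum_count_le I d _ (hC ω)
    have hl0 : 0 ≤ l := by rw [hl]; exact h6.le
    have h9 := mul_le_mul_of_nonneg_left h5 hc0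
    have h10 := mul_le_mul_of_nonneg_left h7 (mul_nonneg (by norm_num : (0 : ℝ) ≤ 4) hl0)
    have h11 := mul_le_mul_of_nonneg_left h8 hl0
    linarith
  have h4 := h2.trans h3
  have h7 : w * (4 + (w - 1) * Real.logb 2 q) * mean μ (fun ω => (C ω).leaves) * l =
      c * w * mean μ (fun ω => (C ω).leaves) := by
    rw [hc, hl, Real.logb]
    field_simp
  have h5 : (I.card : ℝ) * ((49 / 600 : ℝ) * Fintype.card T - 1) * l ≤
      (w * (4 + (w - 1) * Real.logb 2 q) * mean μ (fun ω => (C ω).leaves) +
        d * (4 * mean μ (fun ω => (C ω).refs) + mean μ (fun ω => (C ω).shared))) * l := by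
    rw [add_mul, h7]
    linarith
  exact le_of_mul_le_mul_right h5 (by rw [hl]; exact h6)

end

end Pool.Agent.TH272.Shr
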