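import Mathlib

set_option autoImplicit false

namespace Pool.Agent.TH272.Shr.ZeroSum

/-- The items `some i`: the first `n` numbers. -/
def numbers (n : ℕ) : Finset (Option (Fin n)) := Finset.univ.map Function.Embedding.some

end Pool.Agent.TH272.Shr.ZeroSum
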