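import Pool.Agent.TH457.Ary.ET
import Pool.Agent.TH272.Shr.Core
import Pool.Agent.TH272.Shr.ZeroSumDefs

set_option autoImplicit false

/-! # Exact triangles: circuits with local sharing -/

namespace Pool.Agent.TH272.Shr.ET

open Finset Pool.Agent.TH697.Form Pool.Agent.TH697.Row Pool.Agent.TH697.Form.ET
open Pool.Agent.TH457.Ary.ET (queries exists_b card_str logb_n)
open Pool.Agent.TH272.Shr.ZeroSum (numbers)

variable {n c w d : ℕ}

theorem arith {n b g c w N L E R S d : ℝ} (hn : 24 ≤ n) (hb : 2 ≤ b) (hg : 3 / 4 * g ≤ b)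
    (hg0 : 0 ≤ g) (hc : 1 ≤ c)
    (hw : 1 ≤ w) (hN : n ^ 2 * b / 4 ≤ N) (hL : L ≤ 2 * c * b) (hE : 0 ≤ E) (hS : 0 ≤ S)
    (hR : 0 ≤ R) (hd : 0 ≤ d)
    (h : n * (49 / 600 * N - 1) ≤ w * (4 + (w - 1) * L) * E + d * (4 * R + S)) :
    n ^ 3 * g ≤ 200 * c * w ^ 2 * g * E + 534 * d * (R + S) := by
  have h0 : 576 ≤ n ^ 2 := by nlinarith
  have h1 : n ^ 2 * b / 100 ≤ 49 / 600 * N - 1 := by nlinarith
  have h2 : n * (n ^ 2 * b / 100) ≤ n * (49 / 600 * N - 1) :=
    mul_le_mul_of_nonneg_left h1 (by linarith)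
  have h3 : w * (4 + (w - 1) * L) ≤ 2 * c * b * w ^ 2 := by
    have h4 : (w - 1) * L ≤ (w - 1) * (2 * c * b) := mul_le_mul_of_nonneg_left hL (by linarith)
    have h5 : 4 ≤ 2 * c * b := by nlinarith
    calc w * (4 + (w - 1) * L) ≤ w * (2 * c * b * w) :=
          mul_le_mul_of_nonneg_left (by nlinarith) (by linarith)
      _ = _ := by ring
  have h4 := mul_le_mul_of_nonneg_right h3 hE
  have h5 : 0 ≤ d * S := mul_nonneg hd hS
  have h5' : 0 ≤ d * R := mul_nonneg hd hR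
  have e1 : n * (n ^ 2 * b / 100) = b * n ^ 3 / 100 := by ring
  have e2 : 2 * c * b * w ^ 2 * E = b * (2 * c * w ^ 2 * E) := by ring
  have e4 : d * (4 * R + S) = 4 * (d * R) + d * S := by ring
  rw [e1] at h2
  rw [e2] at h4
  rw [e4] at h
  -- b (n^3 / 100 - 2 c w^2 E) ≤ 4 d (R + S)
  have h6 : b * (n ^ 3 / 100 - 2 * c * w ^ 2 * E) ≤ 4 * (d * R) + 4 * (d * S) := by linarith
  have h7 : g * (n ^ 3 / 100 - 2 * c * w ^ 2 * E) ≤ 16 / 3 * (d * R) + 16 / 3 * (d * S) := by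
    rcases le_total 0 (n ^ 3 / 100 - 2 * c * w ^ 2 * E) with h8 | h8
    · have := mul_le_mul_of_nonneg_right hg h8
      linarith
    · have := mul_nonneg_of_nonpos_of_nonpos h8 (neg_nonpos.2 hg0)
      linarith
  have e3 : 200 * c * w ^ 2 * g * E + 534 * d * (R + S) =
      100 * (g * (2 * c * w ^ 2 * E)) + 534 * (d * R) + 534 * (d * S) := by ring
  rw [e3]
  linarith

theorem log_b {b : ℕ} (hn : 24 ≤ n) (hb1 : 2 ^ (b + 1) ≤ n) (hb2 : n < 2 ^ (b + 2)) :
    (3 / 4 : ℝ) * Nat.log 2 n ≤ b := by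
  have h1 : Nat.log 2 n = b + 1 := by
    rw [Nat.log_eq_iff (Or.inl (by omega))]
    exact ⟨hb1, hb2⟩
  have h2 : 4 ≤ Nat.log 2 n := by
    have := Nat.log_mono_right (b := 2) (show 16 ≤ n by omega)
    rwa [show Nat.log 2 16 = 4 by decide +kernel] at this
  have h3 : (4 : ℝ) ≤ Nat.log 2 n := by exact_mod_cast h2
  have h4 : (Nat.log 2 n : ℝ) = b + 1 := by exact_mod_cast h1
  linarith

theorem main (hn : 24 ≤ n) (hc : 1 ≤ c) (hw : 1 ≤ w) {Ω : Type} [Fintype Ω] (μ : Ω → ℝ)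
    (hμ : IsProb μ) (C : Ω → Circuit (Option (Fin n)) (Item n) w (n ^ c))
    (hd : ∀ ω, (C ω).IsLocal (numbers n) d)
    (hC : ApproximatesOn μ (fun ω => (C ω).eval) (InRange n (n ^ 2)) (zeroTri n)) :
    (n : ℝ) ^ 3 * Nat.log 2 n ≤
      200 * c * w ^ 2 * Nat.log 2 n * mean μ (fun ω => (C ω).leaves) +
        534 * d * (mean μ (fun ω => (C ω).refs) + mean μ (fun ω => (C ω).shared)) := by
  classical
  obtain ⟨b, hb, hb1, hb2, he⟩ := exists_b (n := n) (by omega)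
  have h := circuit_lower μ hμ C (InRange n (n ^ 2)) (zeroTri n) hC
    (Nat.one_le_pow _ _ (by omega)) hw (numbers n) d hd (T := Str n b) (by
      intro a ha
      rw [numbers, mem_map] at ha
      obtain ⟨i, -, rfl⟩ := ha
      exact queries he hb1 i)
  rw [numbers, card_map, card_univ, Fintype.card_fin] at h
  exact arith (by exact_mod_cast hn) (by exact_mod_cast hb) (log_b hn hb1 hb2)
    (Nat.cast_nonneg _) (by exact_mod_cast hc)
    (by exact_mod_cast hw) (card_str hb2) (logb_n hb (by omega) hb2)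
    (mean_nonneg μ hμ _) (mean_nonneg μ hμ _) (mean_nonneg μ hμ _) (Nat.cast_nonneg d) h

theorem single (hn : 24 ≤ n) {Ω : Type} [Fintype Ω] (μ : Ω → ℝ)
    (hμ : IsProb μ) (C : Ω → Circuit (Option (Fin n)) (Item n) 1 2)
    (hd : ∀ ω, (C ω).IsLocal (numbers n) d)
    (hC : ApproximatesOn μ (fun ω => (C ω).eval) (InRange n (n ^ 2)) (zeroTri n)) :
    (n : ℝ) ^ 3 * Nat.log 2 n ≤ 534 * (mean μ (fun ω => (C ω).leaves) +
      d * (mean μ (fun ω => (C ω).refs) + mean μ (fun ω => (C ω).shared))) := by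
  classical
  obtain ⟨b, hb, hb1, hb2, he⟩ := exists_b (n := n) (by omega)
  have h := circuit_lower μ hμ C (InRange n (n ^ 2)) (zeroTri n) hC
    (by norm_num) le_rfl (numbers n) d hd (T := Str n b) (by
      intro a ha
      rw [numbers, mem_map] at ha
      obtain ⟨i, -, rfl⟩ := ha
      exact queries he hb1 i)
  rw [numbers, card_map, card_univ, Fintype.card_fin] at h
  rw [Nat.cast_one, sub_self, zero_mul, add_zero, one_mul] at h
  have hn' : (24 : ℝ) ≤ n := by exact_mod_cast hn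
  have hb' : (2 : ℝ) ≤ b := by exact_mod_cast hb
  have hN := card_str hb2
  have h0 : (576 : ℝ) ≤ n ^ 2 := by nlinarith
  have h1 : (n : ℝ) ^ 2 * b / 100 ≤ 49 / 600 * ((Fintype.card (Str n b) : ℕ) : ℝ) - 1 := by
    nlinarith
  have h2 := mul_le_mul_of_nonneg_left h1 (Nat.cast_nonneg (α := ℝ) n)
  have h3 := mean_nonneg μ hμ (fun ω => (C ω).shared)
  have h4 : 0 ≤ (d : ℝ) * mean μ (fun ω => (C ω).shared) := mul_nonneg (Nat.cast_nonneg d) h3
  have h5 := log_b hn hb1 hb2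
  have h6 : (0 : ℝ) ≤ n ^ 3 := by positivity
  have h7 := mul_le_mul_of_nonneg_left h5 h6
  have e1 : (n : ℝ) * (n ^ 2 * b / 100) = n ^ 3 * b / 100 := by ring
  have h8 : 0 ≤ (d : ℝ) * mean μ (fun ω => (C ω).refs) :=
    mul_nonneg (Nat.cast_nonneg d) (mean_nonneg μ hμ _)
  have h9 := mean_nonneg μ hμ (fun ω => (C ω).leaves)
  have e3 : 534 * (mean μ (fun ω => (C ω).leaves) +
      d * (mean μ (fun ω => (C ω).refs) + mean μ (fun ω => (C ω).shared))) =
      534 * mean μ (fun ω => (C ω).leaves) + 534 * (d * mean μ (fun ω => (C ω).refs)) +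
        534 * (d * mean μ (fun ω => (C ω).shared)) := by ring
  rw [e3]
  rw [e1] at h2
  linarith

end Pool.Agent.TH272.Shr.ET
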