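import Pool.Agent.TH457.Ary.MinPlus
import Pool.Agent.TH272.Shr.Core
import Pool.Agent.TH272.Shr.ZeroSumDefs

set_option autoImplicit false

/-! # Shortest paths: circuits with local sharing -/

namespace Pool.Agent.TH272.Shr.MinPlus

open Finset Pool.Agent.TH697.Form Pool.Agent.TH697.Row Pool.Agent.TH697.Form.MinPlus
open Pool.Agent.TH457.Ary.MinPlus (queries inRange_mono card_T logb_q)
open Pool.Agent.TH272.Shr.ZeroSum (numbers)

variable {n b c w d : ℕ}

theorem arith {n b c w L E R S d : ℝ} (hn : 16 ≤ n) (hb : 4 ≤ b) (hc : 1 ≤ c) (hw : 1 ≤ w)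
    (hL : L ≤ 5 / 4 * c * b) (hE : 0 ≤ E) (hS : 0 ≤ S) (hd : 0 ≤ d)
    (h : n * (49 / 600 * (n ^ 2 * b) - 1) ≤ w * (4 + (w - 1) * L) * E + d * (4 * R + S)) :
    n ^ 3 * b ≤ 32 * c * w ^ 2 * b * E + 100 * d * (R + S) := by
  have h0 : 256 ≤ n ^ 2 := by nlinarith
  have h1 : n ^ 2 * b / 25 ≤ 49 / 600 * (n ^ 2 * b) - 1 := by nlinarith
  have h2 : n * (n ^ 2 * b / 25) ≤ n * (49 / 600 * (n ^ 2 * b) - 1) :=
    mul_le_mul_of_nonneg_left h1 (by linarith)
  have h3 : w * (4 + (w - 1) * L) ≤ 5 / 4 * c * b * w ^ 2 := by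
    have h4 : (w - 1) * L ≤ (w - 1) * (5 / 4 * c * b) := mul_le_mul_of_nonneg_left hL (by linarith)
    have h5 : 4 ≤ 5 / 4 * c * b := by nlinarith
    calc w * (4 + (w - 1) * L) ≤ w * (5 / 4 * c * b * w) :=
          mul_le_mul_of_nonneg_left (by nlinarith) (by linarith)
      _ = _ := by ring
  have h4 := mul_le_mul_of_nonneg_right h3 hE
  have h5 : 0 ≤ d * S := mul_nonneg hd hS
  have h6 : 0 ≤ c * w ^ 2 * b * E := by positivity
  have e1 : n * (n ^ 2 * b / 25) = n ^ 3 * b / 25 := by ring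
  have e2 : 5 / 4 * c * b * w ^ 2 * E = 5 / 4 * (c * w ^ 2 * b * E) := by ring
  rw [e1] at h2
  rw [e2] at h4
  have e3 : 32 * c * w ^ 2 * b * E + 100 * d * (R + S) =
      32 * (c * w ^ 2 * b * E) + 100 * (d * R) + 100 * (d * S) := by ring
  have e4 : d * (4 * R + S) = 4 * (d * R) + d * S := by ring
  rw [e3]
  rw [e4] at h
  linarith

theorem arith_one {n b E R S d : ℝ} (hn : 5 ≤ n) (hb : 1 ≤ b) (hS : 0 ≤ S) (hd : 0 ≤ d)
    (h : n * (49 / 600 * (n ^ 2 * b) - 1) ≤ 4 * E + d * (4 * R + S)) :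
    n ^ 3 * b ≤ 100 * (E + d * (R + S)) := by
  have h0 : 25 ≤ n ^ 2 := by nlinarith
  have h1 : n ^ 2 * b / 25 ≤ 49 / 600 * (n ^ 2 * b) - 1 := by nlinarith
  have h2 : n * (n ^ 2 * b / 25) ≤ n * (49 / 600 * (n ^ 2 * b) - 1) :=
    mul_le_mul_of_nonneg_left h1 (by linarith)
  have h5 : 0 ≤ d * S := mul_nonneg hd hS
  have e1 : n * (n ^ 2 * b / 25) = n ^ 3 * b / 25 := by ring
  rw [e1] at h2
  have e3 : 100 * (E + d * (R + S)) = 100 * E + 100 * (d * R) + 100 * (d * S) := by ring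
  have e4 : d * (4 * R + S) = 4 * (d * R) + d * S := by ring
  rw [e3]
  rw [e4] at h
  linarith

theorem single (hn : 5 ≤ n) (hb : 1 ≤ b) {Ω : Type} [Fintype Ω] (μ : Ω → ℝ)
    (hμ : IsProb μ) (C : Ω → Circuit (Option (Fin n)) (Item n) 1 2)
    (hd : ∀ ω, (C ω).IsLocal (numbers n) d)
    (hC : ApproximatesOn μ (fun ω => (C ω).eval) (InRange n (2 ^ b + 1)) (shortcut n)) :
    (n : ℝ) ^ 3 * b ≤ 100 * (mean μ (fun ω => (C ω).leaves) +
      d * (mean μ (fun ω => (C ω).refs) + mean μ (fun ω => (C ω).shared))) := by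
  classical
  have h := circuit_lower μ hμ C (InRange n (2 ^ b + 1)) (shortcut n) hC
    (by norm_num) le_rfl (numbers n) d hd (T := Fin n × Fin n × Fin b) (by
      intro a ha
      rw [numbers, mem_map] at ha
      obtain ⟨i, -, rfl⟩ := ha
      exact queries i)
  rw [numbers, card_map, card_univ, Fintype.card_fin, card_T] at h
  rw [Nat.cast_one, sub_self, zero_mul, add_zero, one_mul] at h
  exact arith_one (by exact_mod_cast hn) (by exact_mod_cast hb)
    (mean_nonneg μ hμ _) (Nat.cast_nonneg d) h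

theorem main (hn : 16 ≤ n) (hc : 1 ≤ c) (hw : 1 ≤ w) {Ω : Type} [Fintype Ω] (μ : Ω → ℝ)
    (hμ : IsProb μ) (C : Ω → Circuit (Option (Fin n)) (Item n) w (n ^ c))
    (hd : ∀ ω, (C ω).IsLocal (numbers n) d)
    (hC : ApproximatesOn μ (fun ω => (C ω).eval) (InRange n (n + 1)) (shortcut n)) :
    (n : ℝ) ^ 3 * Nat.log 2 n ≤
      32 * c * w ^ 2 * Nat.log 2 n * mean μ (fun ω => (C ω).leaves) +
        100 * d * (mean μ (fun ω => (C ω).refs) + mean μ (fun ω => (C ω).shared)) := by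
  classical
  have hb : 4 ≤ Nat.log 2 n := by
    have := Nat.log_mono_right (b := 2) hn
    rwa [show Nat.log 2 16 = 4 by decide +kernel] at this
  have hb1 : 2 ^ Nat.log 2 n ≤ n := Nat.pow_log_le_self 2 (by omega)
  have hb2 : n < 2 ^ (Nat.log 2 n + 1) := Nat.lt_pow_succ_log_self (by norm_num) n
  have h := circuit_lower μ hμ C (InRange n (2 ^ Nat.log 2 n + 1)) (shortcut n)
    (fun x hx => hC x (inRange_mono (by omega) x hx))
    (Nat.one_le_pow _ _ (by omega)) hw (numbers n) d hd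
    (T := Fin n × Fin n × Fin (Nat.log 2 n)) (by
      intro a ha
      rw [numbers, mem_map] at ha
      obtain ⟨i, -, rfl⟩ := ha
      exact queries i)
  rw [numbers, card_map, card_univ, Fintype.card_fin, card_T] at h
  exact arith (by exact_mod_cast hn) (by exact_mod_cast hb) (by exact_mod_cast hc)
    (by exact_mod_cast hw) (logb_q (by omega) hb hb2)
    (mean_nonneg μ hμ _) (mean_nonneg μ hμ _) (Nat.cast_nonneg d) h

end Pool.Agent.TH272.Shr.MinPlus
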