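import Pool.Agent.TH457.Ary.Tri
import Pool.Agent.TH272.Shr.Core

set_option autoImplicit false

/-! # Triangles in lists of edges: circuits with local sharing -/

namespace Pool.Agent.TH272.Shr.Tri

open Finset Pool.Agent.TH697.Form Pool.Agent.TH697.Row Pool.Agent.TH457.Ary.Tri
open Pool.Agent.TH457.Ary.Sat (exists_k logb_q)

variable {m w d : ℕ}

theorem arith {m k g w N L E R S d : ℝ} (hm : 400 ≤ m) (hk : 4 ≤ k) (hg : 7 / 16 * g ≤ k)
    (hg0 : 0 ≤ g) (hw : 1 ≤ w)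
    (hN : m * k / 2 ≤ N) (hL : L ≤ 6 * k) (hE : 0 ≤ E) (hR : 0 ≤ R) (hS : 0 ≤ S) (hd : 0 ≤ d)
    (h : m * (49 / 600 * N - 1) ≤ w * (4 + (w - 1) * L) * E + d * (4 * R + S)) :
    m ^ 2 * g ≤ 150 * w ^ 2 * g * E + 229 * d * (R + S) := by
  have h1 : m * k / 25 ≤ 49 / 600 * N - 1 := by nlinarith
  have h2 : m * (m * k / 25) ≤ m * (49 / 600 * N - 1) :=
    mul_le_mul_of_nonneg_left h1 (by linarith)
  have h3 : w * (4 + (w - 1) * L) ≤ 6 * k * w ^ 2 := by
    have h4 : (w - 1) * L ≤ (w - 1) * (6 * k) := mul_le_mul_of_nonneg_left hL (by linarith)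
    have h5 : 4 + (w - 1) * L ≤ 6 * k * w := by nlinarith
    calc w * (4 + (w - 1) * L) ≤ w * (6 * k * w) := mul_le_mul_of_nonneg_left h5 (by linarith)
      _ = _ := by ring
  have h4 := mul_le_mul_of_nonneg_right h3 hE
  have h5 : 0 ≤ d * S := mul_nonneg hd hS
  have h5' : 0 ≤ d * R := mul_nonneg hd hR
  have e1 : m * (m * k / 25) = k * m ^ 2 / 25 := by ring
  have e2 : 6 * k * w ^ 2 * E = k * (6 * w ^ 2 * E) := by ring
  have e4 : d * (4 * R + S) = 4 * (d * R) + d * S := by ring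
  rw [e1] at h2
  rw [e2] at h4
  rw [e4] at h
  have h6 : k * (m ^ 2 / 25 - 6 * w ^ 2 * E) ≤ 4 * (d * R) + 4 * (d * S) := by linarith
  have h7 : g * (m ^ 2 / 25 - 6 * w ^ 2 * E) ≤ 64 / 7 * (d * R) + 64 / 7 * (d * S) := by
    rcases le_total 0 (m ^ 2 / 25 - 6 * w ^ 2 * E) with h8 | h8
    · have := mul_le_mul_of_nonneg_right hg h8
      linarith
    · have := mul_nonneg_of_nonpos_of_nonpos h8 (neg_nonpos.2 hg0)
      linarith
  have e3 : 150 * w ^ 2 * g * E + 229 * d * (R + S) =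
      25 * (g * (6 * w ^ 2 * E)) + 229 * (d * R) + 229 * (d * S) := by ring
  rw [e3]
  linarith

theorem arith_one {m k g N E R S d : ℝ} (hm : 400 ≤ m) (hk : 4 ≤ k) (hg : 7 / 16 * g ≤ k)
    (hN : m * k / 2 ≤ N) (hE : 0 ≤ E) (hR : 0 ≤ R) (hS : 0 ≤ S) (hd : 0 ≤ d)
    (h : m * (49 / 600 * N - 1) ≤ 4 * E + d * (4 * R + S)) :
    m ^ 2 * g ≤ 229 * (E + d * (R + S)) := by
  have h1 : m * k / 25 ≤ 49 / 600 * N - 1 := by nlinarith
  have h2 : m * (m * k / 25) ≤ m * (49 / 600 * N - 1) :=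
    mul_le_mul_of_nonneg_left h1 (by linarith)
  have h5 : 0 ≤ d * S := mul_nonneg hd hS
  have h5' : 0 ≤ d * R := mul_nonneg hd hR
  have e1 : m * (m * k / 25) = m ^ 2 * k / 25 := by ring
  have e4 : d * (4 * R + S) = 4 * (d * R) + d * S := by ring
  rw [e1] at h2
  rw [e4] at h
  have h6 := mul_le_mul_of_nonneg_left hg (sq_nonneg m)
  have e3 : 229 * (E + d * (R + S)) = 229 * E + 229 * (d * R) + 229 * (d * S) := by ring
  rw [e3]
  linarith

theorem log_k {k : ℕ} (hm : 400 ≤ m) (hk : m < 4 ^ (k + 1)) :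
    (7 / 16 : ℝ) * Nat.log 2 m ≤ k := by
  have h1 : Nat.log 2 m < 2 * k + 2 := by
    refine Nat.log_lt_of_lt_pow (by omega) ?_
    calc m < 4 ^ (k + 1) := hk
      _ = 2 ^ (2 * k + 2) := by
        rw [show (4 : ℕ) = 2 ^ 2 by norm_num, ← pow_mul]
        congr 1
  have h2 : 8 ≤ Nat.log 2 m := by
    have := Nat.log_mono_right (b := 2) (show 256 ≤ m by omega)
    rwa [show Nat.log 2 256 = 8 by decide +kernel] at this
  have h3 : (8 : ℝ) ≤ Nat.log 2 m := by exact_mod_cast h2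
  have h4 : (Nat.log 2 m : ℝ) ≤ 2 * k + 1 := by
    have : Nat.log 2 m ≤ 2 * k + 1 := by omega
    exact_mod_cast this
  linarith

theorem main (hm : 400 ≤ m) (hw : 1 ≤ w) {Ω : Type} [Fintype Ω] (μ : Ω → ℝ)
    (hμ : IsProb μ) (C : Ω → Circuit (Fin m) (fun _ => Edge (2 * m)) w (4 * m ^ 2))
    (hd : ∀ ω, (C ω).IsLocal univ d)
    (hC : ApproximatesOn μ (fun ω => (C ω).eval) Simple triangle) :
    (m : ℝ) ^ 2 * Nat.log 2 m ≤ 150 * w ^ 2 * Nat.log 2 m * mean μ (fun ω => (C ω).leaves) +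
      229 * d * (mean μ (fun ω => (C ω).refs) + mean μ (fun ω => (C ω).shared)) := by
  obtain ⟨k, hk, hk1, hk2⟩ := exists_k hm
  have h := circuit_lower μ hμ C Simple triangle hC (Nat.mul_pos (by norm_num)
    (pow_pos (by omega) 2)) hw univ d hd (T := Fin (M m k) × Fin k)
    (fun p _ => queries (by omega) hk1 p)
  rw [card_univ, Fintype.card_fin] at h
  exact arith (by exact_mod_cast hm) (by exact_mod_cast hk) (log_k hm hk2)
    (Nat.cast_nonneg _) (by exact_mod_cast hw)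
    (card_T (by omega) hk1) (logb_q hk (by omega) hk2)
    (mean_nonneg μ hμ _) (mean_nonneg μ hμ _) (mean_nonneg μ hμ _) (Nat.cast_nonneg d) h

theorem single (hm : 400 ≤ m) {Ω : Type} [Fintype Ω] (μ : Ω → ℝ)
    (hμ : IsProb μ) (C : Ω → Circuit (Fin m) (fun _ => Edge (2 * m)) 1 2)
    (hd : ∀ ω, (C ω).IsLocal univ d)
    (hC : ApproximatesOn μ (fun ω => (C ω).eval) Simple triangle) :
    (m : ℝ) ^ 2 * Nat.log 2 m ≤ 229 * (mean μ (fun ω => (C ω).leaves) +
      d * (mean μ (fun ω => (C ω).refs) + mean μ (fun ω => (C ω).shared))) := by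
  obtain ⟨k, hk, hk1, hk2⟩ := exists_k hm
  have h := circuit_lower μ hμ C Simple triangle hC (by norm_num) le_rfl univ d hd
    (T := Fin (M m k) × Fin k) (fun p _ => queries (by omega) hk1 p)
  rw [card_univ, Fintype.card_fin] at h
  rw [Nat.cast_one, sub_self, zero_mul, add_zero, one_mul] at h
  exact arith_one (by exact_mod_cast hm) (by exact_mod_cast hk) (log_k hm hk2)
    (card_T (by omega) hk1)
    (mean_nonneg μ hμ _) (mean_nonneg μ hμ _) (mean_nonneg μ hμ _) (Nat.cast_nonneg d) h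

end Pool.Agent.TH272.Shr.Tri
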