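import Pool.Agent.TH457.Ary.ZeroSum
import Pool.Agent.TH272.Shr.Core
import Pool.Agent.TH272.Shr.ZeroSumDefs

set_option autoImplicit false

/-! # 3SUM: circuits with local sharing -/

namespace Pool.Agent.TH272.Shr.ZeroSum

open Finset Pool.Agent.TH697.Form Pool.Agent.TH697.Row Pool.Agent.TH697.Form.ThreeSum
open Pool.Agent.TH457.Ary.ZeroSum (zeroSum queries)
open Pool.Agent.TH457.Ary.ThreeSum (params card_T logb_q)

variable {n c w d : ℕ}

theorem arith {n g c w N L E R S d : ℝ} (hn : 400 ≤ n) (hg : 8 ≤ g) (hc : 1 ≤ c) (hw : 1 ≤ w)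
    (hN : n * g / 7 ≤ N) (hL : L ≤ 4 / 3 * c * g) (hE : 0 ≤ E) (hS : 0 ≤ S)
    (hd : 0 ≤ d)
    (h : n * (49 / 600 * N - 1) ≤ w * (4 + (w - 1) * L) * E + d * (4 * R + S)) :
    n ^ 2 * g ≤ 134 * c * w ^ 2 * g * E + 400 * d * (R + S) := by
  have h1 : n * g / 100 ≤ 49 / 600 * N - 1 := by nlinarith
  have h2 : n * (n * g / 100) ≤ n * (49 / 600 * N - 1) :=
    mul_le_mul_of_nonneg_left h1 (by linarith)
  have h3 : w * (4 + (w - 1) * L) ≤ 4 / 3 * c * g * w ^ 2 := by
    have h4 : (w - 1) * L ≤ (w - 1) * (4 / 3 * c * g) := mul_le_mul_of_nonneg_left hL (by linarith)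
    have h5 : 4 ≤ 4 / 3 * c * g := by nlinarith
    calc w * (4 + (w - 1) * L) ≤ w * (4 / 3 * c * g * w) :=
          mul_le_mul_of_nonneg_left (by nlinarith) (by linarith)
      _ = _ := by ring
  have h4 := mul_le_mul_of_nonneg_right h3 hE
  have h5 : 0 ≤ d * S := mul_nonneg hd hS
  have h6 : 0 ≤ c * w ^ 2 * g * E := by positivity
  have e1 : n * (n * g / 100) = n ^ 2 * g / 100 := by ring
  have e2 : 4 / 3 * c * g * w ^ 2 * E = 4 / 3 * (c * w ^ 2 * g * E) := by ring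
  rw [e1] at h2
  rw [e2] at h4
  have e3 : 134 * c * w ^ 2 * g * E + 400 * d * (R + S) =
      134 * (c * w ^ 2 * g * E) + 400 * (d * R) + 400 * (d * S) := by ring
  have e4 : d * (4 * R + S) = 4 * (d * R) + d * S := by ring
  rw [e3]
  rw [e4] at h
  linarith

theorem arith_one {n g N E R S d : ℝ} (hn : 400 ≤ n) (hg : 8 ≤ g)
    (hN : n * g / 7 ≤ N) (hS : 0 ≤ S) (hd : 0 ≤ d)
    (h : n * (49 / 600 * N - 1) ≤ 4 * E + d * (4 * R + S)) :
    n ^ 2 * g ≤ 400 * (E + d * (R + S)) := by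
  have h1 : n * g / 100 ≤ 49 / 600 * N - 1 := by nlinarith
  have h2 : n * (n * g / 100) ≤ n * (49 / 600 * N - 1) :=
    mul_le_mul_of_nonneg_left h1 (by linarith)
  have h5 : 0 ≤ d * S := mul_nonneg hd hS
  have e1 : n * (n * g / 100) = n ^ 2 * g / 100 := by ring
  rw [e1] at h2
  have e3 : 400 * (E + d * (R + S)) = 400 * E + 400 * (d * R) + 400 * (d * S) := by ring
  have e4 : d * (4 * R + S) = 4 * (d * R) + d * S := by ring
  rw [e3]
  rw [e4] at h
  linarith

theorem main (hn : 400 ≤ n) (hc : 1 ≤ c) (hw : 1 ≤ w) {Ω : Type} [Fintype Ω] (μ : Ω → ℝ)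
    (hμ : IsProb μ) (C : Ω → Circuit (Option (Fin n)) (Item n n) w ((2 * n) ^ c))
    (hd : ∀ ω, (C ω).IsLocal (numbers n) d)
    (hC : ApproximatesOn μ (fun ω => (C ω).eval) (Valid n n) (zeroSum n)) :
    (n : ℝ) ^ 2 * Nat.log 2 n ≤ 134 * c * w ^ 2 * Nat.log 2 n * mean μ (fun ω => (C ω).leaves) +
      400 * d * (mean μ (fun ω => (C ω).refs) + mean μ (fun ω => (C ω).shared)) := by
  classical
  obtain ⟨b, hb, hL, hb2⟩ := params hn
  have h := circuit_lower μ hμ C (Valid n n) (zeroSum n) hC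
    (Nat.one_le_pow _ _ (by omega)) hw (numbers n) d hd (T := Fin (n / 2) × Fin b) (by
      intro a ha
      rw [numbers, mem_map] at ha
      obtain ⟨i, -, rfl⟩ := ha
      exact queries hb hn i)
  rw [numbers, card_map, card_univ, Fintype.card_fin] at h
  exact arith (by exact_mod_cast hn) (by exact_mod_cast hL) (by exact_mod_cast hc)
    (by exact_mod_cast hw) (card_T hn hb2) (logb_q (by omega) hL) (mean_nonneg μ hμ _)
    (mean_nonneg μ hμ _) (Nat.cast_nonneg d) h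

theorem single (hn : 400 ≤ n) {Ω : Type} [Fintype Ω] (μ : Ω → ℝ)
    (hμ : IsProb μ) (C : Ω → Circuit (Option (Fin n)) (Item n n) 1 2)
    (hd : ∀ ω, (C ω).IsLocal (numbers n) d)
    (hC : ApproximatesOn μ (fun ω => (C ω).eval) (Valid n n) (zeroSum n)) :
    (n : ℝ) ^ 2 * Nat.log 2 n ≤ 400 * (mean μ (fun ω => (C ω).leaves) +
      d * (mean μ (fun ω => (C ω).refs) + mean μ (fun ω => (C ω).shared))) := by
  classical
  obtain ⟨b, hb, hL, hb2⟩ := params hn
  have h := circuit_lower μ hμ C (Valid n n) (zeroSum n) hC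
    (by norm_num) le_rfl (numbers n) d hd (T := Fin (n / 2) × Fin b) (by
      intro a ha
      rw [numbers, mem_map] at ha
      obtain ⟨i, -, rfl⟩ := ha
      exact queries hb hn i)
  rw [numbers, card_map, card_univ, Fintype.card_fin] at h
  rw [Nat.cast_one, sub_self, zero_mul, add_zero, one_mul] at h
  exact arith_one (by exact_mod_cast hn) (by exact_mod_cast hL) (card_T hn hb2)
    (mean_nonneg μ hμ _) (Nat.cast_nonneg d) h

end Pool.Agent.TH272.Shr.ZeroSum
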